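import Pool.Agent.helper14.NS.Q122a.PN13

/-!
Generated: certificates.
-/

namespace Pool.Agent.helper14.NS.Q122a

open Pool.Agent.helper31.IA (Z)
open Pool.Agent.helper31.IX (Op XOps runX Cov CovD cov_split covD_split)
open Pool.Agent.helper31.IC (TD)
open Pool.Agent.helper63.RG (reloc)
open Pool.Agent.helper63.NF hiding TD
open Pool.Agent.helper4.NS
open Pool.Agent.helper14.CF (xE covD_E)
open Pool.Agent.helper14.NR (share)

mutual
theorem A13_c2_t6 : CovD 1 gA13 [(7540047872, 210501632), (68719476736, 68719476736), (3367254360064, 68719476736)] :=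
  covD_E kA13_eq (.n 1 (.n 2 (.n 2 (.n 0 (.n 2 (.l 0) (.l 0)) (.l 0)) (.n 2 (.l 0) (.l 0))) (.n 2 (.n 1 (.l 0) (.l 0)) (.l 0))) (.n 2 (.n 2 (.n 2 (.l 0) (.l 0)) (.n 2 (.l 0) (.l 0))) (.n 2 (.n 1 (.l 0) (.l 0)) (.l 0))))
    [(7540047872, 210501632), (68719476736, 68719476736), (3367254360064, 68719476736)] rfl (by decide +kernel)
theorem A13_c2_t7 : CovD 1 gA13 [(7961051136, 210501632), (68719476736, 68719476736), (3367254360064, 68719476736)] :=
  covD_E kA13_eq (.n 1 (.n 2 (.n 2 (.l 0) (.l 0)) (.l 0)) (.n 2 (.n 2 (.l 0) (.l 0)) (.l 0)))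
    [(7961051136, 210501632), (68719476736, 68719476736), (3367254360064, 68719476736)] rfl (by decide +kernel)
end

mutual
theorem A13_c2_t8 : CovD 1 gA13 [(7750549504, 421003264), (206158430208, 68719476736), (3367254360064, 68719476736)] :=
  covD_E kA13_eq (.n 1 (.n 2 (.n 2 (.n 0 (.n 1 (.l 0) (.l 0)) (.l 0)) (.n 2 (.l 0) (.l 0))) (.n 0 (.n 2 (.n 0 (.l 0) (.l 0)) (.l 0)) (.l 0))) (.n 2 (.n 0 (.n 2 (.l 0) (.l 0)) (.l 0)) (.n 2 (.l 0) (.l 0))))
    [(7750549504, 421003264), (206158430208, 68719476736), (3367254360064, 68719476736)] rfl (by decide +kernel)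
theorem A13_c2_t9 : CovD 1 gA13 [(8592556032, 421003264), (137438953472, 137438953472), (3367254360064, 68719476736)] :=
  covD_E kA13_eq (.n 1 (.n 1 (.n 2 (.n 0 (.l 0) (.l 0)) (.l 0)) (.n 2 (.n 0 (.l 0) (.l 0)) (.l 0))) (.n 1 (.n 2 (.n 0 (.l 0) (.l 0)) (.l 0)) (.n 2 (.l 0) (.l 0))))
    [(8592556032, 421003264), (137438953472, 137438953472), (3367254360064, 68719476736)] rfl (by decide +kernel)
end

mutual
theorem A13_c2_t15 : CovD 1 gA13 [(7434797056, 105250816), (68719476736, 68719476736), (3470333575168, 34359738368)] :=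
  covD_E kA13_eq (.n 1 (.n 2 (.l 0) (.n 0 (.l 1) (.l 1))) (.n 2 (.l 0) (.n 2 (.n 1 (.n 2 (.l 0) (.l 1)) (.n 2 (.l 0) (.l 1))) (.l 1))))
    [(7434797056, 105250816), (68719476736, 68719476736), (3470333575168, 34359738368)] rfl (by decide +kernel)
theorem A13_c2_t16 : CovD 1 gA13 [(7645298688, 105250816), (68719476736, 68719476736), (3470333575168, 34359738368)] :=
  covD_E kA13_eq (.n 1 (.n 2 (.l 0) (.n 2 (.n 2 (.l 0) (.l 1)) (.l 1))) (.n 2 (.l 0) (.n 2 (.n 0 (.n 2 (.l 0) (.n 0 (.l 1) (.l 1))) (.n 1 (.l 0) (.l 0))) (.l 1))))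
    [(7645298688, 105250816), (68719476736, 68719476736), (3470333575168, 34359738368)] rfl (by decide +kernel)
end

mutual
theorem A13_c2_t17 : CovD 1 gA13 [(7540047872, 210501632), (68719476736, 68719476736), (3539053051904, 34359738368)] :=
  covD_E kA13_eq (.l 1)
    [(7540047872, 210501632), (68719476736, 68719476736), (3539053051904, 34359738368)] rfl (by decide +kernel)
theorem A13_c2_t21 : CovD 1 gA13 [(7434797056, 105250816), (171798691840, 34359738368), (3470333575168, 34359738368)] :=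
  covD_E kA13_eq (.n 2 (.l 0) (.n 1 (.n 2 (.n 2 (.l 0) (.n 0 (.l 1) (.l 1))) (.l 1)) (.n 2 (.n 0 (.n 0 (.l 0) (.l 0)) (.l 0)) (.l 1))))
    [(7434797056, 105250816), (171798691840, 34359738368), (3470333575168, 34359738368)] rfl (by decide +kernel)
end

mutual
theorem A13_c2_t22 : CovD 1 gA13 [(7645298688, 105250816), (171798691840, 34359738368), (3470333575168, 34359738368)] :=
  covD_E kA13_eq (.n 2 (.l 0) (.n 1 (.n 2 (.n 0 (.l 0) (.l 0)) (.l 1)) (.n 0 (.n 2 (.l 0) (.l 1)) (.n 2 (.l 0) (.l 1)))))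
    [(7645298688, 105250816), (171798691840, 34359738368), (3470333575168, 34359738368)] rfl (by decide +kernel)
theorem A13_c2_t23 : CovD 1 gA13 [(7540047872, 210501632), (171798691840, 34359738368), (3539053051904, 34359738368)] :=
  covD_E kA13_eq (.l 1)
    [(7540047872, 210501632), (171798691840, 34359738368), (3539053051904, 34359738368)] rfl (by decide +kernel)
end

mutual
theorem A13_c2_t25 : CovD 1 gA13 [(7540047872, 210501632), (223338299392, 17179869184), (3504693313536, 68719476736)] :=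
  covD_E kA13_eq (.n 2 (.n 2 (.l 0) (.n 0 (.n 1 (.n 2 (.l 0) (.l 1)) (.n 2 (.l 0) (.l 1))) (.n 2 (.l 0) (.n 0 (.n 1 (.l 1) (.l 1)) (.n 1 (.l 1) (.l 1)))))) (.l 1))
    [(7540047872, 210501632), (223338299392, 17179869184), (3504693313536, 68719476736)] rfl (by decide +kernel)
theorem A13_c2_t26 : CovD 1 gA13 [(7540047872, 210501632), (257698037760, 17179869184), (3504693313536, 68719476736)] :=
  covD_E kA13_eq (.n 2 (.n 2 (.l 0) (.n 0 (.n 2 (.l 0) (.n 1 (.n 0 (.l 1) (.l 1)) (.n 2 (.l 0) (.l 1)))) (.n 1 (.n 2 (.l 0) (.n 2 (.l 0) (.l 1))) (.n 0 (.l 0) (.l 0))))) (.n 0 (.l 1) (.l 1)))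
    [(7540047872, 210501632), (257698037760, 17179869184), (3504693313536, 68719476736)] rfl (by decide +kernel)
end

mutual
theorem A13_c2_t29 : CovD 1 gA13 [(7961051136, 210501632), (34359738368, 34359738368), (3504693313536, 68719476736)] :=
  covD_E kA13_eq (.n 2 (.n 2 (.l 0) (.n 2 (.n 0 (.n 0 (.l 0) (.l 0)) (.l 0)) (.l 1))) (.l 1))
    [(7961051136, 210501632), (34359738368, 34359738368), (3504693313536, 68719476736)] rfl (by decide +kernel)
theorem A13_c2_t30 : CovD 1 gA13 [(7961051136, 210501632), (103079215104, 34359738368), (3504693313536, 68719476736)] :=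
  covD_E kA13_eq (.n 2 (.n 2 (.l 0) (.n 0 (.n 2 (.n 0 (.n 1 (.l 0) (.l 0)) (.n 0 (.l 0) (.l 0))) (.l 1)) (.n 0 (.n 2 (.l 0) (.l 1)) (.n 2 (.l 0) (.l 1))))) (.l 1))
    [(7961051136, 210501632), (103079215104, 34359738368), (3504693313536, 68719476736)] rfl (by decide +kernel)
end

mutual
theorem A13_c2_t32 : CovD 1 gA13 [(7961051136, 210501632), (171798691840, 34359738368), (3504693313536, 68719476736)] :=
  covD_E kA13_eq (.n 2 (.n 2 (.l 0) (.n 0 (.n 1 (.n 2 (.l 0) (.l 1)) (.n 2 (.l 0) (.n 0 (.l 1) (.n 0 (.l 1) (.l 1))))) (.n 1 (.n 2 (.l 0) (.n 0 (.l 1) (.l 1))) (.n 2 (.l 0) (.n 2 (.n 0 (.l 0) (.l 0)) (.l 1)))))) (.n 0 (.l 1) (.l 1)))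
    [(7961051136, 210501632), (171798691840, 34359738368), (3504693313536, 68719476736)] rfl (by decide +kernel)
theorem A13_c2_t34 : CovD 1 gA13 [(7961051136, 210501632), (240518168576, 34359738368), (3470333575168, 34359738368)] :=
  covD_E kA13_eq (.n 2 (.l 0) (.n 0 (.n 1 (.n 2 (.l 0) (.n 0 (.n 2 (.l 0) (.l 1)) (.n 2 (.l 0) (.l 1)))) (.n 1 (.n 0 (.l 0) (.l 0)) (.l 0))) (.n 0 (.n 1 (.n 1 (.l 0) (.l 0)) (.l 0)) (.n 1 (.n 0 (.l 0) (.l 0)) (.l 0)))))
    [(7961051136, 210501632), (240518168576, 34359738368), (3470333575168, 34359738368)] rfl (by decide +kernel)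
end

mutual
theorem A13_c2_t35 : CovD 1 gA13 [(7961051136, 210501632), (240518168576, 34359738368), (3539053051904, 34359738368)] :=
  covD_E kA13_eq (.n 1 (.n 0 (.l 1) (.l 1)) (.n 2 (.n 0 (.l 1) (.n 0 (.l 1) (.l 1))) (.l 1)))
    [(7961051136, 210501632), (240518168576, 34359738368), (3539053051904, 34359738368)] rfl (by decide +kernel)
theorem A13_c2_t39 : CovD 1 gA13 [(8382054400, 210501632), (34359738368, 34359738368), (3504693313536, 68719476736)] :=
  covD_E kA13_eq (.n 2 (.n 2 (.l 0) (.n 0 (.n 2 (.l 0) (.l 1)) (.n 2 (.l 0) (.l 1)))) (.l 1))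
    [(8382054400, 210501632), (34359738368, 34359738368), (3504693313536, 68719476736)] rfl (by decide +kernel)
end

mutual
theorem A13_c2_t40 : CovD 1 gA13 [(8382054400, 210501632), (103079215104, 34359738368), (3504693313536, 68719476736)] :=
  covD_E kA13_eq (.n 2 (.n 2 (.l 0) (.n 0 (.n 1 (.n 2 (.l 0) (.l 1)) (.n 2 (.l 0) (.n 0 (.l 1) (.l 1)))) (.n 2 (.l 0) (.n 1 (.l 1) (.n 2 (.l 0) (.l 1)))))) (.l 1))
    [(8382054400, 210501632), (103079215104, 34359738368), (3504693313536, 68719476736)] rfl (by decide +kernel)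
theorem A13_c2_t42 : CovD 1 gA13 [(8382054400, 210501632), (171798691840, 34359738368), (3504693313536, 68719476736)] :=
  covD_E kA13_eq (.n 2 (.n 2 (.l 0) (.n 0 (.n 2 (.l 0) (.n 1 (.n 2 (.n 0 (.l 0) (.l 0)) (.l 1)) (.n 2 (.l 0) (.n 0 (.l 1) (.l 1))))) (.n 1 (.n 2 (.l 0) (.n 2 (.l 0) (.l 1))) (.n 0 (.l 0) (.l 0))))) (.n 1 (.l 1) (.n 0 (.l 1) (.l 1))))
    [(8382054400, 210501632), (171798691840, 34359738368), (3504693313536, 68719476736)] rfl (by decide +kernel)
end

mutual
theorem A13_c2_t44 : CovD 1 gA13 [(8382054400, 210501632), (240518168576, 34359738368), (3470333575168, 34359738368)] :=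
  covD_E kA13_eq (.n 1 (.n 2 (.l 0) (.n 0 (.n 0 (.l 0) (.l 0)) (.l 0))) (.n 0 (.l 0) (.l 0)))
    [(8382054400, 210501632), (240518168576, 34359738368), (3470333575168, 34359738368)] rfl (by decide +kernel)
theorem A13_c2_t45 : CovD 1 gA13 [(8382054400, 210501632), (240518168576, 34359738368), (3539053051904, 34359738368)] :=
  covD_E kA13_eq (.n 2 (.n 0 (.n 1 (.n 0 (.l 1) (.l 1)) (.n 1 (.l 1) (.n 0 (.l 1) (.l 1)))) (.n 1 (.n 1 (.l 1) (.l 1)) (.n 1 (.n 0 (.l 1) (.l 1)) (.n 2 (.n 0 (.l 0) (.l 0)) (.l 1))))) (.l 1))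
    [(8382054400, 210501632), (240518168576, 34359738368), (3539053051904, 34359738368)] rfl (by decide +kernel)
end

mutual
theorem A13_c2_t48 : CovD 1 gA13 [(8803057664, 210501632), (68719476736, 68719476736), (3470333575168, 34359738368)] :=
  covD_E kA13_eq (.n 2 (.l 0) (.n 1 (.n 0 (.n 2 (.l 0) (.n 0 (.l 1) (.l 0))) (.n 0 (.l 0) (.l 0))) (.n 0 (.n 0 (.n 2 (.l 0) (.n 1 (.l 1) (.l 0))) (.n 1 (.l 0) (.l 0))) (.n 1 (.n 0 (.l 0) (.l 0)) (.l 0)))))
    [(8803057664, 210501632), (68719476736, 68719476736), (3470333575168, 34359738368)] rfl (by decide +kernel)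
theorem A13_c2_t49 : CovD 1 gA13 [(8803057664, 210501632), (68719476736, 68719476736), (3539053051904, 34359738368)] :=
  covD_E kA13_eq (.n 1 (.l 1) (.n 0 (.l 1) (.l 1)))
    [(8803057664, 210501632), (68719476736, 68719476736), (3539053051904, 34359738368)] rfl (by decide +kernel)
end

mutual
theorem A13_c2_t52 : CovD 1 gA13 [(8697806848, 105250816), (171798691840, 34359738368), (3504693313536, 68719476736)] :=
  covD_E kA13_eq (.n 1 (.n 2 (.n 0 (.l 0) (.l 0)) (.l 1)) (.n 0 (.n 2 (.l 0) (.l 1)) (.n 2 (.l 0) (.l 1))))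
    [(8697806848, 105250816), (171798691840, 34359738368), (3504693313536, 68719476736)] rfl (by decide +kernel)
theorem A13_c2_t53 : CovD 1 gA13 [(8697806848, 105250816), (240518168576, 34359738368), (3504693313536, 68719476736)] :=
  covD_E kA13_eq (.n 2 (.n 1 (.l 0) (.l 0)) (.n 2 (.n 1 (.n 1 (.l 1) (.n 0 (.l 1) (.l 1))) (.n 2 (.n 1 (.n 0 (.l 0) (.l 0)) (.l 0)) (.l 1))) (.l 1)))
    [(8697806848, 105250816), (240518168576, 34359738368), (3504693313536, 68719476736)] rfl (by decide +kernel)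
end

mutual
theorem A13_c2_t54 : CovD 1 gA13 [(8908308480, 105250816), (206158430208, 68719476736), (3504693313536, 68719476736)] :=
  covD_E kA13_eq (.n 1 (.n 1 (.n 2 (.l 0) (.l 1)) (.n 2 (.l 0) (.n 1 (.l 1) (.n 0 (.l 1) (.l 1))))) (.n 2 (.n 0 (.l 0) (.l 0)) (.n 2 (.n 1 (.n 2 (.n 2 (.l 0) (.n 0 (.l 1) (.l 1))) (.l 1)) (.n 2 (.n 0 (.l 0) (.l 0)) (.l 1))) (.l 1))))
    [(8908308480, 105250816), (206158430208, 68719476736), (3504693313536, 68719476736)] rfl (by decide +kernel)
theorem A13_c2_t55 : CovD 1 gA13 [(8171552768, 842006528), (137438953472, 137438953472), (3710851743744, 137438953472)] :=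
  covD_E kA13_eq (.n 0 (.n 1 (.l 1) (.l 1)) (.n 1 (.l 1) (.n 0 (.l 1) (.l 1))))
    [(8171552768, 842006528), (137438953472, 137438953472), (3710851743744, 137438953472)] rfl (by decide +kernel)
end

mutual
theorem A13_c2_t56 : CovD 1 gA13 [(8171552768, 842006528), (137438953472, 137438953472), (4123168604160, 274877906944)] :=
  covD_E kA13_eq (.l 1)
    [(8171552768, 842006528), (137438953472, 137438953472), (4123168604160, 274877906944)] rfl (by decide +kernel)
theorem A13_c3 : CovD 1 gA13 [(8171552768, 842006528), (137438953472, 137438953472), (6597069766656, 2199023255552)] :=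
  covD_E kA13_eq (.n 2 (.n 2 (.n 2 (.l 1) (.l 1)) (.l 1)) (.n 2 (.l 1) (.l 1)))
    [(8171552768, 842006528), (137438953472, 137438953472), (6597069766656, 2199023255552)] rfl (by decide +kernel)
end

mutual
theorem B13_c0_t1 : CovD 1 gB13 [(8171552768, 842006528), (137438953472, 137438953472), (34359738368, 34359738368)] :=
  covD_E kB13_eq (.n 1 (.n 2 (.n 2 (.n 2 (.l 1) (.l 1)) (.n 2 (.l 1) (.l 1))) (.n 2 (.n 2 (.l 1) (.l 1)) (.l 1))) (.n 2 (.n 2 (.n 2 (.l 1) (.l 1)) (.n 2 (.l 1) (.l 1))) (.n 2 (.n 2 (.l 1) (.l 1)) (.n 0 (.l 1) (.l 1)))))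
    [(8171552768, 842006528), (137438953472, 137438953472), (34359738368, 34359738368)] rfl (by decide +kernel)
theorem B13_c0_t2 : CovD 1 gB13 [(8171552768, 842006528), (137438953472, 137438953472), (103079215104, 34359738368)] :=
  covD_E kB13_eq (.n 2 (.n 1 (.n 2 (.l 1) (.l 1)) (.n 2 (.l 1) (.l 1))) (.n 2 (.n 0 (.l 1) (.l 1)) (.l 1)))
    [(8171552768, 842006528), (137438953472, 137438953472), (103079215104, 34359738368)] rfl (by decide +kernel)
end

mutual
theorem C13_c0_t3 : CovD 1 gC13 [(8171552768, 842006528), (17179869184, 17179869184), (549755813888, 549755813888)] :=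
  covD_E kC13_eq (.n 2 (.n 2 (.n 2 (.l 0) (.l 0)) (.n 2 (.l 0) (.l 0))) (.n 2 (.n 1 (.n 1 (.l 0) (.l 0)) (.l 0)) (.n 1 (.n 1 (.n 2 (.l 0) (.n 2 (.l 0) (.n 2 (.l 0) (.n 2 (.l 0) (.n 2 (.l 0) (.n 2 (.l 0) (.l 1))))))) (.l 0)) (.l 0))))
    [(8171552768, 842006528), (17179869184, 17179869184), (549755813888, 549755813888)] rfl (by decide +kernel)
theorem C13_c0_t4 : CovD 1 gC13 [(8171552768, 842006528), (51539607552, 17179869184), (549755813888, 549755813888)] :=
  covD_E kC13_eq (.n 2 (.n 2 (.l 0) (.l 0)) (.n 2 (.l 0) (.n 0 (.l 0) (.l 0))))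
    [(8171552768, 842006528), (51539607552, 17179869184), (549755813888, 549755813888)] rfl (by decide +kernel)
end

mutual
theorem C13_c0_t5 : CovD 1 gC13 [(8171552768, 842006528), (103079215104, 34359738368), (549755813888, 549755813888)] :=
  covD_E kC13_eq (.n 2 (.n 2 (.l 0) (.l 0)) (.n 2 (.l 0) (.l 0)))
    [(8171552768, 842006528), (103079215104, 34359738368), (549755813888, 549755813888)] rfl (by decide +kernel)
theorem C13_c0_t6 : CovD 1 gC13 [(8171552768, 842006528), (206158430208, 68719476736), (549755813888, 549755813888)] :=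
  covD_E kC13_eq (.n 2 (.n 2 (.l 0) (.l 0)) (.n 2 (.l 0) (.l 0)))
    [(8171552768, 842006528), (206158430208, 68719476736), (549755813888, 549755813888)] rfl (by decide +kernel)
end

mutual
theorem D13_c0_t1 : CovD 1 gD13 [(8171552768, 842006528), (137438953472, 137438953472), (431805169664, 431805169664)] :=
  covD_E kD13_eq (.n 2 (.n 2 (.n 2 (.l 0) (.n 1 (.l 0) (.l 0))) (.n 2 (.n 2 (.l 0) (.l 0)) (.n 2 (.l 0) (.l 0)))) (.n 2 (.n 2 (.n 2 (.l 0) (.l 0)) (.n 2 (.l 0) (.l 0))) (.n 2 (.n 2 (.l 0) (.l 0)) (.n 2 (.l 0) (.l 0)))))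
    [(8171552768, 842006528), (137438953472, 137438953472), (431805169664, 431805169664)] rfl (by decide +kernel)
theorem D13_c0_t2 : CovD 1 gD13 [(8171552768, 842006528), (137438953472, 137438953472), (1295415508992, 431805169664)] :=
  covD_E kD13_eq (.n 2 (.n 2 (.n 2 (.n 2 (.l 0) (.l 0)) (.n 2 (.l 0) (.l 0))) (.n 2 (.n 2 (.l 0) (.l 0)) (.n 2 (.l 0) (.l 0)))) (.n 2 (.n 2 (.n 2 (.l 0) (.l 0)) (.n 2 (.l 0) (.l 0))) (.n 2 (.n 2 (.l 0) (.l 0)) (.n 2 (.l 0) (.l 0)))))
    [(8171552768, 842006528), (137438953472, 137438953472), (1295415508992, 431805169664)] rfl (by decide +kernel)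
end

mutual
theorem E13_c0_t3 : CovD 1 gE13 [(8171552768, 842006528), (137438953472, 137438953472), (107951292416, 107951292416)] :=
  covD_E kE13_eq (.l 1)
    [(8171552768, 842006528), (137438953472, 137438953472), (107951292416, 107951292416)] rfl (by decide +kernel)
theorem E13_c0_t5 : CovD 1 gE13 [(8171552768, 842006528), (137438953472, 137438953472), (269878231040, 53975646208)] :=
  covD_E kE13_eq (.l 1)
    [(8171552768, 842006528), (137438953472, 137438953472), (269878231040, 53975646208)] rfl (by decide +kernel)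
end

mutual
theorem E13_c0_t8 : CovD 1 gE13 [(7750549504, 421003264), (137438953472, 137438953472), (350841700352, 26987823104)] :=
  covD_E kE13_eq (.n 1 (.n 2 (.l 1) (.n 0 (.n 1 (.n 0 (.l 0) (.l 0)) (.n 2 (.n 0 (.n 1 (.l 0) (.l 1)) (.l 1)) (.l 0))) (.n 0 (.n 2 (.l 1) (.l 0)) (.l 1)))) (.n 0 (.n 1 (.n 1 (.n 2 (.l 1) (.n 2 (.l 1) (.l 0))) (.l 1)) (.l 1)) (.l 1)))
    [(7750549504, 421003264), (137438953472, 137438953472), (350841700352, 26987823104)] rfl (by decide +kernel)
theorem E13_c0_t9 : CovD 1 gE13 [(8592556032, 421003264), (137438953472, 137438953472), (350841700352, 26987823104)] :=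
  covD_E kE13_eq (.n 1 (.l 1) (.l 1))
    [(8592556032, 421003264), (137438953472, 137438953472), (350841700352, 26987823104)] rfl (by decide +kernel)
end

mutual
theorem E13_c0_t10 : CovD 1 gE13 [(8171552768, 842006528), (137438953472, 137438953472), (404817346560, 26987823104)] :=
  covD_E kE13_eq (.n 0 (.n 1 (.n 2 (.l 0) (.l 0)) (.n 2 (.n 0 (.n 1 (.l 0) (.n 2 (.n 1 (.l 0) (.l 1)) (.l 0))) (.n 1 (.l 0) (.l 1))) (.l 0))) (.n 1 (.n 2 (.n 0 (.l 0) (.l 0)) (.l 0)) (.n 2 (.n 1 (.l 1) (.l 1)) (.l 0))))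
    [(8171552768, 842006528), (137438953472, 137438953472), (404817346560, 26987823104)] rfl (by decide +kernel)
theorem E13_c0_t12 : CovD 1 gE13 [(8171552768, 842006528), (137438953472, 137438953472), (539756462080, 107951292416)] :=
  covD_E kE13_eq (.n 2 (.n 2 (.n 1 (.n 2 (.l 0) (.l 0)) (.n 2 (.n 0 (.l 0) (.l 0)) (.l 0))) (.n 1 (.n 2 (.l 0) (.l 0)) (.n 2 (.l 0) (.l 0)))) (.n 2 (.n 0 (.n 2 (.l 0) (.l 0)) (.n 2 (.l 0) (.l 0))) (.n 2 (.l 0) (.l 0))))
    [(8171552768, 842006528), (137438953472, 137438953472), (539756462080, 107951292416)] rfl (by decide +kernel)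
end

mutual
theorem E13_c0_t13 : CovD 1 gE13 [(8171552768, 842006528), (137438953472, 137438953472), (755659046912, 107951292416)] :=
  covD_E kE13_eq (.n 2 (.n 2 (.n 2 (.l 0) (.l 0)) (.n 2 (.l 0) (.l 0))) (.n 2 (.n 2 (.l 0) (.l 0)) (.n 2 (.l 0) (.l 0))))
    [(8171552768, 842006528), (137438953472, 137438953472), (755659046912, 107951292416)] rfl (by decide +kernel)
theorem E13_c0_t15 : CovD 1 gE13 [(8171552768, 842006528), (137438953472, 137438953472), (1079512924160, 215902584832)] :=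
  covD_E kE13_eq (.n 2 (.n 2 (.n 2 (.n 2 (.l 0) (.l 0)) (.n 0 (.l 0) (.l 0))) (.n 2 (.n 0 (.l 0) (.l 0)) (.l 0))) (.n 2 (.n 2 (.l 0) (.l 0)) (.n 2 (.l 0) (.l 0))))
    [(8171552768, 842006528), (137438953472, 137438953472), (1079512924160, 215902584832)] rfl (by decide +kernel)
end

theorem E13_c0_t16 : CovD 1 gE13 [(8171552768, 842006528), (137438953472, 137438953472), (1511318093824, 215902584832)] :=
  covD_E kE13_eq (.n 2 (.n 2 (.n 2 (.l 0) (.l 0)) (.n 2 (.l 0) (.l 0))) (.n 2 (.n 2 (.l 0) (.l 0)) (.n 2 (.l 0) (.l 0))))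
    [(8171552768, 842006528), (137438953472, 137438953472), (1511318093824, 215902584832)] rfl (by decide +kernel)

theorem A13_c2_t5 : CovD 1 gA13 [(7750549504, 421003264), (68719476736, 68719476736), (3367254360064, 68719476736)] :=
  covD_split 0 (by decide +kernel) A13_c2_t6 A13_c2_t7

theorem A13_c2_t4 : CovD 1 gA13 [(7750549504, 421003264), (137438953472, 137438953472), (3367254360064, 68719476736)] :=
  covD_split 1 (by decide +kernel) A13_c2_t5 A13_c2_t8

theorem A13_c2_t3 : CovD 1 gA13 [(8171552768, 842006528), (137438953472, 137438953472), (3367254360064, 68719476736)] :=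
  covD_split 0 (by decide +kernel) A13_c2_t4 A13_c2_t9

theorem A13_c2_t14 : CovD 1 gA13 [(7540047872, 210501632), (68719476736, 68719476736), (3470333575168, 34359738368)] :=
  covD_split 0 (by decide +kernel) A13_c2_t15 A13_c2_t16

theorem A13_c2_t13 : CovD 1 gA13 [(7540047872, 210501632), (68719476736, 68719476736), (3504693313536, 68719476736)] :=
  covD_split 2 (by decide +kernel) A13_c2_t14 A13_c2_t17

theorem A13_c2_t20 : CovD 1 gA13 [(7540047872, 210501632), (171798691840, 34359738368), (3470333575168, 34359738368)] :=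
  covD_split 0 (by decide +kernel) A13_c2_t21 A13_c2_t22

theorem A13_c2_t19 : CovD 1 gA13 [(7540047872, 210501632), (171798691840, 34359738368), (3504693313536, 68719476736)] :=
  covD_split 2 (by decide +kernel) A13_c2_t20 A13_c2_t23

theorem A13_c2_t24 : CovD 1 gA13 [(7540047872, 210501632), (240518168576, 34359738368), (3504693313536, 68719476736)] :=
  covD_split 1 (by decide +kernel) A13_c2_t25 A13_c2_t26

theorem A13_c2_t18 : CovD 1 gA13 [(7540047872, 210501632), (206158430208, 68719476736), (3504693313536, 68719476736)] :=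
  covD_split 1 (by decide +kernel) A13_c2_t19 A13_c2_t24

theorem A13_c2_t12 : CovD 1 gA13 [(7540047872, 210501632), (137438953472, 137438953472), (3504693313536, 68719476736)] :=
  covD_split 1 (by decide +kernel) A13_c2_t13 A13_c2_t18

theorem A13_c2_t28 : CovD 1 gA13 [(7961051136, 210501632), (68719476736, 68719476736), (3504693313536, 68719476736)] :=
  covD_split 1 (by decide +kernel) A13_c2_t29 A13_c2_t30

theorem A13_c2_t33 : CovD 1 gA13 [(7961051136, 210501632), (240518168576, 34359738368), (3504693313536, 68719476736)] :=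
  covD_split 2 (by decide +kernel) A13_c2_t34 A13_c2_t35

theorem A13_c2_t31 : CovD 1 gA13 [(7961051136, 210501632), (206158430208, 68719476736), (3504693313536, 68719476736)] :=
  covD_split 1 (by decide +kernel) A13_c2_t32 A13_c2_t33

theorem A13_c2_t27 : CovD 1 gA13 [(7961051136, 210501632), (137438953472, 137438953472), (3504693313536, 68719476736)] :=
  covD_split 1 (by decide +kernel) A13_c2_t28 A13_c2_t31

theorem A13_c2_t11 : CovD 1 gA13 [(7750549504, 421003264), (137438953472, 137438953472), (3504693313536, 68719476736)] :=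
  covD_split 0 (by decide +kernel) A13_c2_t12 A13_c2_t27

theorem A13_c2_t38 : CovD 1 gA13 [(8382054400, 210501632), (68719476736, 68719476736), (3504693313536, 68719476736)] :=
  covD_split 1 (by decide +kernel) A13_c2_t39 A13_c2_t40

theorem A13_c2_t43 : CovD 1 gA13 [(8382054400, 210501632), (240518168576, 34359738368), (3504693313536, 68719476736)] :=
  covD_split 2 (by decide +kernel) A13_c2_t44 A13_c2_t45

theorem A13_c2_t41 : CovD 1 gA13 [(8382054400, 210501632), (206158430208, 68719476736), (3504693313536, 68719476736)] :=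
  covD_split 1 (by decide +kernel) A13_c2_t42 A13_c2_t43

theorem A13_c2_t37 : CovD 1 gA13 [(8382054400, 210501632), (137438953472, 137438953472), (3504693313536, 68719476736)] :=
  covD_split 1 (by decide +kernel) A13_c2_t38 A13_c2_t41

theorem A13_c2_t47 : CovD 1 gA13 [(8803057664, 210501632), (68719476736, 68719476736), (3504693313536, 68719476736)] :=
  covD_split 2 (by decide +kernel) A13_c2_t48 A13_c2_t49

theorem A13_c2_t51 : CovD 1 gA13 [(8697806848, 105250816), (206158430208, 68719476736), (3504693313536, 68719476736)] :=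
  covD_split 1 (by decide +kernel) A13_c2_t52 A13_c2_t53

theorem A13_c2_t50 : CovD 1 gA13 [(8803057664, 210501632), (206158430208, 68719476736), (3504693313536, 68719476736)] :=
  covD_split 0 (by decide +kernel) A13_c2_t51 A13_c2_t54

theorem A13_c2_t46 : CovD 1 gA13 [(8803057664, 210501632), (137438953472, 137438953472), (3504693313536, 68719476736)] :=
  covD_split 1 (by decide +kernel) A13_c2_t47 A13_c2_t50

theorem A13_c2_t36 : CovD 1 gA13 [(8592556032, 421003264), (137438953472, 137438953472), (3504693313536, 68719476736)] :=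
  covD_split 0 (by decide +kernel) A13_c2_t37 A13_c2_t46

theorem A13_c2_t10 : CovD 1 gA13 [(8171552768, 842006528), (137438953472, 137438953472), (3504693313536, 68719476736)] :=
  covD_split 0 (by decide +kernel) A13_c2_t11 A13_c2_t36

theorem A13_c2_t2 : CovD 1 gA13 [(8171552768, 842006528), (137438953472, 137438953472), (3435973836800, 137438953472)] :=
  covD_split 2 (by decide +kernel) A13_c2_t3 A13_c2_t10

theorem A13_c2_t1 : CovD 1 gA13 [(8171552768, 842006528), (137438953472, 137438953472), (3573412790272, 274877906944)] :=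
  covD_split 2 (by decide +kernel) A13_c2_t2 A13_c2_t55

theorem A13_c2 : CovD 1 gA13 [(8171552768, 842006528), (137438953472, 137438953472), (3848290697216, 549755813888)] :=
  covD_split 2 (by decide +kernel) A13_c2_t1 A13_c2_t56

theorem B13_c0 : CovD 1 gB13 [(8171552768, 842006528), (137438953472, 137438953472), (68719476736, 68719476736)] :=
  covD_split 2 (by decide +kernel) B13_c0_t1 B13_c0_t2

theorem C13_c0_t2 : CovD 1 gC13 [(8171552768, 842006528), (34359738368, 34359738368), (549755813888, 549755813888)] :=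
  covD_split 1 (by decide +kernel) C13_c0_t3 C13_c0_t4

theorem C13_c0_t1 : CovD 1 gC13 [(8171552768, 842006528), (68719476736, 68719476736), (549755813888, 549755813888)] :=
  covD_split 1 (by decide +kernel) C13_c0_t2 C13_c0_t5

theorem C13_c0 : CovD 1 gC13 [(8171552768, 842006528), (137438953472, 137438953472), (549755813888, 549755813888)] :=
  covD_split 1 (by decide +kernel) C13_c0_t1 C13_c0_t6

theorem D13_c0 : CovD 1 gD13 [(8171552768, 842006528), (137438953472, 137438953472), (863610339328, 863610339328)] :=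
  covD_split 2 (by decide +kernel) D13_c0_t1 D13_c0_t2

theorem E13_c0_t7 : CovD 1 gE13 [(8171552768, 842006528), (137438953472, 137438953472), (350841700352, 26987823104)] :=
  covD_split 0 (by decide +kernel) E13_c0_t8 E13_c0_t9

theorem E13_c0_t6 : CovD 1 gE13 [(8171552768, 842006528), (137438953472, 137438953472), (377829523456, 53975646208)] :=
  covD_split 2 (by decide +kernel) E13_c0_t7 E13_c0_t10

theorem E13_c0_t4 : CovD 1 gE13 [(8171552768, 842006528), (137438953472, 137438953472), (323853877248, 107951292416)] :=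
  covD_split 2 (by decide +kernel) E13_c0_t5 E13_c0_t6

theorem E13_c0_t2 : CovD 1 gE13 [(8171552768, 842006528), (137438953472, 137438953472), (215902584832, 215902584832)] :=
  covD_split 2 (by decide +kernel) E13_c0_t3 E13_c0_t4

theorem E13_c0_t11 : CovD 1 gE13 [(8171552768, 842006528), (137438953472, 137438953472), (647707754496, 215902584832)] :=
  covD_split 2 (by decide +kernel) E13_c0_t12 E13_c0_t13

theorem E13_c0_t1 : CovD 1 gE13 [(8171552768, 842006528), (137438953472, 137438953472), (431805169664, 431805169664)] :=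
  covD_split 2 (by decide +kernel) E13_c0_t2 E13_c0_t11

theorem E13_c0_t14 : CovD 1 gE13 [(8171552768, 842006528), (137438953472, 137438953472), (1295415508992, 431805169664)] :=
  covD_split 2 (by decide +kernel) E13_c0_t15 E13_c0_t16

theorem E13_c0 : CovD 1 gE13 [(8171552768, 842006528), (137438953472, 137438953472), (863610339328, 863610339328)] :=
  covD_split 2 (by decide +kernel) E13_c0_t1 E13_c0_t14

end Pool.Agent.helper14.NS.Q122a
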