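import Pool.Agent.helper14.NS.Q122a.PN5

/-!
Generated: certificates.
-/

namespace Pool.Agent.helper14.NS.Q122a

open Pool.Agent.helper31.IA (Z)
open Pool.Agent.helper31.IX (Op XOps runX Cov CovD cov_split covD_split)
open Pool.Agent.helper31.IC (TD)
open Pool.Agent.helper63.RG (reloc)
open Pool.Agent.helper63.NF hiding TD
open Pool.Agent.helper4.NS
open Pool.Agent.helper14.CF (xE covD_E)
open Pool.Agent.helper14.NR (share)

mutual
theorem A5_c0_t6 : CovD 1 gA5 [(8171552768, 842006528), (137438953472, 137438953472), (68719476736, 68719476736)] :=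
  covD_E kA5_eq (.n 2 (.l 2) (.n 1 (.n 2 (.l 2) (.n 1 (.n 2 (.l 2) (.n 1 (.n 1 (.l 0) (.l 0)) (.l 0))) (.l 0))) (.l 0)))
    [(8171552768, 842006528), (137438953472, 137438953472), (68719476736, 68719476736)] rfl (by decide +kernel)
theorem A5_c0_t8 : CovD 1 gA5 [(8171552768, 842006528), (68719476736, 68719476736), (206158430208, 68719476736)] :=
  covD_E kA5_eq (.n 1 (.n 1 (.n 1 (.n 2 (.n 1 (.l 0) (.l 0)) (.l 0)) (.n 2 (.n 1 (.l 0) (.l 0)) (.l 0))) (.n 2 (.n 2 (.l 0) (.l 0)) (.n 1 (.l 0) (.l 0)))) (.n 1 (.n 2 (.l 0) (.l 0)) (.n 1 (.l 0) (.l 0))))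
    [(8171552768, 842006528), (68719476736, 68719476736), (206158430208, 68719476736)] rfl (by decide +kernel)
end

mutual
theorem A5_c0_t9 : CovD 1 gA5 [(8171552768, 842006528), (206158430208, 68719476736), (206158430208, 68719476736)] :=
  covD_E kA5_eq (.n 1 (.n 1 (.l 0) (.l 0)) (.l 0))
    [(8171552768, 842006528), (206158430208, 68719476736), (206158430208, 68719476736)] rfl (by decide +kernel)
theorem A5_c0_t11 : CovD 1 gA5 [(8171552768, 842006528), (68719476736, 68719476736), (412316860416, 137438953472)] :=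
  covD_E kA5_eq (.n 1 (.n 1 (.n 2 (.n 2 (.l 0) (.l 0)) (.l 0)) (.n 2 (.n 1 (.l 0) (.l 0)) (.l 0))) (.n 2 (.n 2 (.n 1 (.l 0) (.l 0)) (.l 0)) (.n 1 (.l 0) (.l 0))))
    [(8171552768, 842006528), (68719476736, 68719476736), (412316860416, 137438953472)] rfl (by decide +kernel)
end

mutual
theorem A5_c0_t12 : CovD 1 gA5 [(8171552768, 842006528), (206158430208, 68719476736), (412316860416, 137438953472)] :=
  covD_E kA5_eq (.n 1 (.n 1 (.n 2 (.l 0) (.l 0)) (.n 2 (.l 0) (.l 0))) (.n 2 (.l 0) (.l 0)))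
    [(8171552768, 842006528), (206158430208, 68719476736), (412316860416, 137438953472)] rfl (by decide +kernel)
theorem A5_c0_t14 : CovD 1 gA5 [(8171552768, 842006528), (137438953472, 137438953472), (687194767360, 137438953472)] :=
  covD_E kA5_eq (.n 1 (.n 1 (.n 0 (.n 2 (.l 0) (.l 0)) (.n 2 (.l 0) (.l 0))) (.n 2 (.n 0 (.l 0) (.l 0)) (.l 0))) (.n 1 (.n 2 (.l 0) (.l 0)) (.n 2 (.l 0) (.l 0))))
    [(8171552768, 842006528), (137438953472, 137438953472), (687194767360, 137438953472)] rfl (by decide +kernel)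
end

mutual
theorem A5_c0_t15 : CovD 1 gA5 [(8171552768, 842006528), (137438953472, 137438953472), (962072674304, 137438953472)] :=
  covD_E kA5_eq (.n 1 (.n 0 (.n 2 (.l 0) (.l 0)) (.n 2 (.l 0) (.l 0))) (.n 1 (.n 2 (.l 0) (.l 0)) (.n 2 (.l 0) (.l 0))))
    [(8171552768, 842006528), (137438953472, 137438953472), (962072674304, 137438953472)] rfl (by decide +kernel)
theorem A5_c0_t17 : CovD 1 gA5 [(8171552768, 842006528), (137438953472, 137438953472), (1374389534720, 274877906944)] :=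
  covD_E kA5_eq (.n 2 (.n 1 (.n 2 (.n 2 (.l 0) (.l 0)) (.n 2 (.l 0) (.l 0))) (.n 0 (.n 2 (.l 0) (.l 0)) (.n 2 (.l 0) (.l 0)))) (.n 1 (.n 2 (.n 2 (.l 0) (.l 0)) (.n 2 (.l 0) (.l 0))) (.n 0 (.n 2 (.l 0) (.l 0)) (.n 2 (.l 0) (.l 0)))))
    [(8171552768, 842006528), (137438953472, 137438953472), (1374389534720, 274877906944)] rfl (by decide +kernel)
end

mutual
theorem A5_c0_t18 : CovD 1 gA5 [(8171552768, 842006528), (137438953472, 137438953472), (1924145348608, 274877906944)] :=
  covD_E kA5_eq (.n 2 (.n 1 (.n 2 (.n 2 (.l 0) (.l 0)) (.n 2 (.l 0) (.l 0))) (.n 0 (.n 2 (.l 0) (.l 0)) (.n 2 (.l 0) (.l 0)))) (.n 1 (.n 2 (.n 2 (.l 0) (.l 0)) (.n 2 (.l 0) (.l 0))) (.n 0 (.n 2 (.l 0) (.l 0)) (.n 2 (.l 0) (.l 0)))))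
    [(8171552768, 842006528), (137438953472, 137438953472), (1924145348608, 274877906944)] rfl (by decide +kernel)
theorem A5_c0_t21 : CovD 1 gA5 [(8171552768, 842006528), (137438953472, 137438953472), (2473901162496, 274877906944)] :=
  covD_E kA5_eq (.n 2 (.n 1 (.n 2 (.n 2 (.l 0) (.l 0)) (.n 0 (.l 0) (.l 0))) (.n 0 (.n 2 (.l 0) (.l 0)) (.n 2 (.l 0) (.l 0)))) (.n 0 (.n 1 (.n 2 (.l 0) (.l 0)) (.n 2 (.l 0) (.l 0))) (.n 1 (.n 2 (.l 0) (.l 0)) (.n 2 (.l 0) (.l 0)))))
    [(8171552768, 842006528), (137438953472, 137438953472), (2473901162496, 274877906944)] rfl (by decide +kernel)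
end

mutual
theorem A5_c0_t23 : CovD 1 gA5 [(8171552768, 842006528), (137438953472, 137438953472), (2886218022912, 137438953472)] :=
  covD_E kA5_eq (.n 1 (.n 2 (.n 0 (.l 0) (.l 0)) (.l 0)) (.n 0 (.n 2 (.l 0) (.l 0)) (.n 2 (.l 0) (.l 0))))
    [(8171552768, 842006528), (137438953472, 137438953472), (2886218022912, 137438953472)] rfl (by decide +kernel)
theorem A5_c0_t25 : CovD 1 gA5 [(8171552768, 842006528), (68719476736, 68719476736), (3161095929856, 137438953472)] :=
  covD_E kA5_eq (.n 2 (.l 0) (.n 2 (.n 2 (.l 0) (.n 2 (.n 0 (.n 2 (.l 0) (.l 1)) (.n 2 (.l 0) (.l 1))) (.l 1))) (.l 1)))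
    [(8171552768, 842006528), (68719476736, 68719476736), (3161095929856, 137438953472)] rfl (by decide +kernel)
end

mutual
theorem A5_c0_t27 : CovD 1 gA5 [(8171552768, 842006528), (206158430208, 68719476736), (3092376453120, 68719476736)] :=
  covD_E kA5_eq (.l 0)
    [(8171552768, 842006528), (206158430208, 68719476736), (3092376453120, 68719476736)] rfl (by decide +kernel)
theorem A5_c0_t30 : CovD 1 gA5 [(8171552768, 842006528), (171798691840, 34359738368), (3195455668224, 34359738368)] :=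
  covD_E kA5_eq (.n 2 (.l 0) (.n 2 (.n 0 (.n 2 (.l 0) (.n 0 (.l 1) (.l 1))) (.n 2 (.l 0) (.n 0 (.l 1) (.l 1)))) (.l 1)))
    [(8171552768, 842006528), (171798691840, 34359738368), (3195455668224, 34359738368)] rfl (by decide +kernel)
end

mutual
theorem A5_c0_t31 : CovD 1 gA5 [(8171552768, 842006528), (240518168576, 34359738368), (3195455668224, 34359738368)] :=
  covD_E kA5_eq (.n 0 (.n 2 (.l 0) (.n 2 (.n 0 (.n 1 (.l 0) (.l 0)) (.n 1 (.l 0) (.l 0))) (.l 1))) (.n 2 (.l 0) (.n 2 (.n 0 (.n 1 (.l 0) (.l 0)) (.n 1 (.l 0) (.l 0))) (.l 1))))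
    [(8171552768, 842006528), (240518168576, 34359738368), (3195455668224, 34359738368)] rfl (by decide +kernel)
theorem A5_c0_t32 : CovD 1 gA5 [(8171552768, 842006528), (206158430208, 68719476736), (3264175144960, 34359738368)] :=
  covD_E kA5_eq (.l 1)
    [(8171552768, 842006528), (206158430208, 68719476736), (3264175144960, 34359738368)] rfl (by decide +kernel)
end

mutual
theorem A5_c0_t33 : CovD 1 gA5 [(8171552768, 842006528), (137438953472, 137438953472), (3848290697216, 549755813888)] :=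
  covD_E kA5_eq (.n 2 (.n 2 (.l 1) (.l 1)) (.l 1))
    [(8171552768, 842006528), (137438953472, 137438953472), (3848290697216, 549755813888)] rfl (by decide +kernel)
theorem A5_c0_t34 : CovD 1 gA5 [(8171552768, 842006528), (137438953472, 137438953472), (6597069766656, 2199023255552)] :=
  covD_E kA5_eq (.n 2 (.n 2 (.l 1) (.l 1)) (.n 2 (.l 1) (.l 1)))
    [(8171552768, 842006528), (137438953472, 137438953472), (6597069766656, 2199023255552)] rfl (by decide +kernel)
end

mutual
theorem B5_c0_t3 : CovD 1 gB5 [(8171552768, 842006528), (68719476736, 68719476736), (17179869184, 17179869184)] :=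
  covD_E kB5_eq (.n 2 (.n 2 (.n 1 (.n 2 (.l 1) (.l 1)) (.n 2 (.l 1) (.l 1))) (.n 2 (.n 0 (.l 1) (.l 1)) (.l 1))) (.n 2 (.n 2 (.l 1) (.l 1)) (.n 0 (.l 1) (.l 1))))
    [(8171552768, 842006528), (68719476736, 68719476736), (17179869184, 17179869184)] rfl (by decide +kernel)
theorem B5_c0_t4 : CovD 1 gB5 [(8171552768, 842006528), (206158430208, 68719476736), (17179869184, 17179869184)] :=
  covD_E kB5_eq (.n 2 (.n 2 (.n 2 (.n 2 (.l 1) (.l 1)) (.n 2 (.l 1) (.l 1))) (.n 1 (.n 2 (.l 1) (.l 1)) (.n 2 (.l 1) (.l 1)))) (.n 2 (.n 0 (.n 2 (.l 1) (.l 1)) (.n 2 (.l 1) (.l 1))) (.n 2 (.l 1) (.l 1))))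
    [(8171552768, 842006528), (206158430208, 68719476736), (17179869184, 17179869184)] rfl (by decide +kernel)
end

mutual
theorem B5_c0_t5 : CovD 1 gB5 [(8171552768, 842006528), (137438953472, 137438953472), (51539607552, 17179869184)] :=
  covD_E kB5_eq (.n 2 (.n 1 (.n 2 (.l 1) (.l 1)) (.n 2 (.n 0 (.l 1) (.l 1)) (.l 1))) (.n 2 (.n 0 (.l 1) (.l 1)) (.l 1)))
    [(8171552768, 842006528), (137438953472, 137438953472), (51539607552, 17179869184)] rfl (by decide +kernel)
theorem B5_c0_t6 : CovD 1 gB5 [(8171552768, 842006528), (137438953472, 137438953472), (103079215104, 34359738368)] :=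
  covD_E kB5_eq (.n 2 (.n 2 (.n 2 (.l 1) (.l 1)) (.n 0 (.l 1) (.l 1))) (.n 2 (.l 1) (.l 1)))
    [(8171552768, 842006528), (137438953472, 137438953472), (103079215104, 34359738368)] rfl (by decide +kernel)
end

mutual
theorem C5_c0_t1 : CovD 1 gC5 [(8171552768, 842006528), (137438953472, 137438953472), (274877906944, 274877906944)] :=
  covD_E kC5_eq (.n 1 (.n 1 (.n 1 (.n 2 (.n 2 (.l 0) (.l 0)) (.n 2 (.l 0) (.l 0))) (.n 2 (.l 0) (.l 0))) (.n 2 (.l 0) (.l 0))) (.n 2 (.l 0) (.l 0)))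
    [(8171552768, 842006528), (137438953472, 137438953472), (274877906944, 274877906944)] rfl (by decide +kernel)
theorem C5_c0_t3 : CovD 1 gC5 [(8171552768, 842006528), (137438953472, 137438953472), (687194767360, 137438953472)] :=
  covD_E kC5_eq (.n 1 (.n 1 (.n 1 (.n 1 (.n 1 (.l 0) (.l 0)) (.l 0)) (.l 0)) (.l 0)) (.l 0))
    [(8171552768, 842006528), (137438953472, 137438953472), (687194767360, 137438953472)] rfl (by decide +kernel)
end

mutual
theorem C5_c0_t4 : CovD 1 gC5 [(8171552768, 842006528), (137438953472, 137438953472), (962072674304, 137438953472)] :=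
  covD_E kC5_eq (.n 1 (.n 1 (.n 1 (.n 1 (.n 1 (.n 1 (.n 1 (.n 2 (.l 0) (.n 2 (.l 0) (.n 2 (.l 0) (.n 2 (.l 0) (.n 2 (.l 0) (.n 2 (.l 0) (.n 2 (.l 0) (.n 2 (.l 0) (.l 1))))))))) (.l 0)) (.l 0)) (.l 0)) (.l 0)) (.l 0)) (.l 0)) (.l 0))
    [(8171552768, 842006528), (137438953472, 137438953472), (962072674304, 137438953472)] rfl (by decide +kernel)
theorem D5_c0_t1 : CovD 1 gD5 [(8171552768, 842006528), (137438953472, 137438953472), (431805169664, 431805169664)] :=
  covD_E kD5_eq (.n 2 (.n 2 (.n 2 (.l 0) (.l 0)) (.n 2 (.n 0 (.l 0) (.l 0)) (.n 1 (.l 0) (.l 0)))) (.n 2 (.n 2 (.n 1 (.l 0) (.l 0)) (.n 1 (.l 0) (.l 0))) (.n 2 (.n 1 (.l 0) (.l 0)) (.n 0 (.l 0) (.l 0)))))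
    [(8171552768, 842006528), (137438953472, 137438953472), (431805169664, 431805169664)] rfl (by decide +kernel)
end

mutual
theorem D5_c0_t2 : CovD 1 gD5 [(8171552768, 842006528), (137438953472, 137438953472), (1295415508992, 431805169664)] :=
  covD_E kD5_eq (.n 2 (.n 2 (.n 2 (.n 0 (.l 0) (.l 0)) (.n 2 (.l 0) (.l 0))) (.n 2 (.n 2 (.l 0) (.l 0)) (.n 2 (.l 0) (.l 0)))) (.n 2 (.n 2 (.n 2 (.l 0) (.l 0)) (.n 2 (.l 0) (.l 0))) (.n 2 (.n 2 (.l 0) (.l 0)) (.n 2 (.l 0) (.l 0)))))
    [(8171552768, 842006528), (137438953472, 137438953472), (1295415508992, 431805169664)] rfl (by decide +kernel)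
theorem E5_c0_t3 : CovD 1 gE5 [(8171552768, 842006528), (137438953472, 137438953472), (107951292416, 107951292416)] :=
  covD_E kE5_eq (.n 2 (.n 2 (.l 1) (.n 0 (.n 2 (.l 0) (.l 0)) (.n 2 (.l 0) (.l 0)))) (.n 2 (.n 0 (.n 2 (.l 0) (.l 0)) (.n 2 (.l 0) (.l 0))) (.n 2 (.l 0) (.l 0))))
    [(8171552768, 842006528), (137438953472, 137438953472), (107951292416, 107951292416)] rfl (by decide +kernel)
end

mutual
theorem E5_c0_t4 : CovD 1 gE5 [(8171552768, 842006528), (137438953472, 137438953472), (323853877248, 107951292416)] :=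
  covD_E kE5_eq (.n 2 (.n 2 (.n 2 (.l 0) (.l 0)) (.n 2 (.l 0) (.l 0))) (.n 2 (.n 2 (.l 0) (.l 0)) (.n 2 (.l 0) (.l 0))))
    [(8171552768, 842006528), (137438953472, 137438953472), (323853877248, 107951292416)] rfl (by decide +kernel)
theorem E5_c0_t5 : CovD 1 gE5 [(8171552768, 842006528), (137438953472, 137438953472), (647707754496, 215902584832)] :=
  covD_E kE5_eq (.n 2 (.n 2 (.n 2 (.n 2 (.l 0) (.l 0)) (.n 2 (.l 0) (.l 0))) (.n 2 (.n 2 (.l 0) (.l 0)) (.n 2 (.l 0) (.l 0)))) (.n 2 (.n 2 (.n 2 (.l 0) (.l 0)) (.n 0 (.l 0) (.l 0))) (.n 2 (.l 0) (.l 0))))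
    [(8171552768, 842006528), (137438953472, 137438953472), (647707754496, 215902584832)] rfl (by decide +kernel)
end

theorem E5_c0_t6 : CovD 1 gE5 [(8171552768, 842006528), (137438953472, 137438953472), (1295415508992, 431805169664)] :=
  covD_E kE5_eq (.n 2 (.n 2 (.n 2 (.n 2 (.l 0) (.l 0)) (.n 2 (.l 0) (.l 0))) (.n 2 (.n 2 (.l 0) (.l 0)) (.n 2 (.l 0) (.l 0)))) (.n 2 (.n 2 (.n 2 (.l 0) (.l 0)) (.n 2 (.l 0) (.l 0))) (.n 2 (.n 2 (.l 0) (.l 0)) (.n 2 (.l 0) (.l 0)))))
    [(8171552768, 842006528), (137438953472, 137438953472), (1295415508992, 431805169664)] rfl (by decide +kernel)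

theorem A5_c0_t7 : CovD 1 gA5 [(8171552768, 842006528), (137438953472, 137438953472), (206158430208, 68719476736)] :=
  covD_split 1 (by decide +kernel) A5_c0_t8 A5_c0_t9

theorem A5_c0_t5 : CovD 1 gA5 [(8171552768, 842006528), (137438953472, 137438953472), (137438953472, 137438953472)] :=
  covD_split 2 (by decide +kernel) A5_c0_t6 A5_c0_t7

theorem A5_c0_t10 : CovD 1 gA5 [(8171552768, 842006528), (137438953472, 137438953472), (412316860416, 137438953472)] :=
  covD_split 1 (by decide +kernel) A5_c0_t11 A5_c0_t12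

theorem A5_c0_t4 : CovD 1 gA5 [(8171552768, 842006528), (137438953472, 137438953472), (274877906944, 274877906944)] :=
  covD_split 2 (by decide +kernel) A5_c0_t5 A5_c0_t10

theorem A5_c0_t13 : CovD 1 gA5 [(8171552768, 842006528), (137438953472, 137438953472), (824633720832, 274877906944)] :=
  covD_split 2 (by decide +kernel) A5_c0_t14 A5_c0_t15

theorem A5_c0_t3 : CovD 1 gA5 [(8171552768, 842006528), (137438953472, 137438953472), (549755813888, 549755813888)] :=
  covD_split 2 (by decide +kernel) A5_c0_t4 A5_c0_t13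

theorem A5_c0_t16 : CovD 1 gA5 [(8171552768, 842006528), (137438953472, 137438953472), (1649267441664, 549755813888)] :=
  covD_split 2 (by decide +kernel) A5_c0_t17 A5_c0_t18

theorem A5_c0_t2 : CovD 1 gA5 [(8171552768, 842006528), (137438953472, 137438953472), (1099511627776, 1099511627776)] :=
  covD_split 2 (by decide +kernel) A5_c0_t3 A5_c0_t16

theorem A5_c0_t29 : CovD 1 gA5 [(8171552768, 842006528), (206158430208, 68719476736), (3195455668224, 34359738368)] :=
  covD_split 1 (by decide +kernel) A5_c0_t30 A5_c0_t31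

theorem A5_c0_t28 : CovD 1 gA5 [(8171552768, 842006528), (206158430208, 68719476736), (3229815406592, 68719476736)] :=
  covD_split 2 (by decide +kernel) A5_c0_t29 A5_c0_t32

theorem A5_c0_t26 : CovD 1 gA5 [(8171552768, 842006528), (206158430208, 68719476736), (3161095929856, 137438953472)] :=
  covD_split 2 (by decide +kernel) A5_c0_t27 A5_c0_t28

theorem A5_c0_t24 : CovD 1 gA5 [(8171552768, 842006528), (137438953472, 137438953472), (3161095929856, 137438953472)] :=
  covD_split 1 (by decide +kernel) A5_c0_t25 A5_c0_t26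

theorem A5_c0_t22 : CovD 1 gA5 [(8171552768, 842006528), (137438953472, 137438953472), (3023656976384, 274877906944)] :=
  covD_split 2 (by decide +kernel) A5_c0_t23 A5_c0_t24

theorem A5_c0_t20 : CovD 1 gA5 [(8171552768, 842006528), (137438953472, 137438953472), (2748779069440, 549755813888)] :=
  covD_split 2 (by decide +kernel) A5_c0_t21 A5_c0_t22

theorem A5_c0_t19 : CovD 1 gA5 [(8171552768, 842006528), (137438953472, 137438953472), (3298534883328, 1099511627776)] :=
  covD_split 2 (by decide +kernel) A5_c0_t20 A5_c0_t33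

theorem A5_c0_t1 : CovD 1 gA5 [(8171552768, 842006528), (137438953472, 137438953472), (2199023255552, 2199023255552)] :=
  covD_split 2 (by decide +kernel) A5_c0_t2 A5_c0_t19

theorem A5_c0 : CovD 1 gA5 [(8171552768, 842006528), (137438953472, 137438953472), (4398046511104, 4398046511104)] :=
  covD_split 2 (by decide +kernel) A5_c0_t1 A5_c0_t34

theorem B5_c0_t2 : CovD 1 gB5 [(8171552768, 842006528), (137438953472, 137438953472), (17179869184, 17179869184)] :=
  covD_split 1 (by decide +kernel) B5_c0_t3 B5_c0_t4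

theorem B5_c0_t1 : CovD 1 gB5 [(8171552768, 842006528), (137438953472, 137438953472), (34359738368, 34359738368)] :=
  covD_split 2 (by decide +kernel) B5_c0_t2 B5_c0_t5

theorem B5_c0 : CovD 1 gB5 [(8171552768, 842006528), (137438953472, 137438953472), (68719476736, 68719476736)] :=
  covD_split 2 (by decide +kernel) B5_c0_t1 B5_c0_t6

theorem C5_c0_t2 : CovD 1 gC5 [(8171552768, 842006528), (137438953472, 137438953472), (824633720832, 274877906944)] :=
  covD_split 2 (by decide +kernel) C5_c0_t3 C5_c0_t4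

theorem C5_c0 : CovD 1 gC5 [(8171552768, 842006528), (137438953472, 137438953472), (549755813888, 549755813888)] :=
  covD_split 2 (by decide +kernel) C5_c0_t1 C5_c0_t2

theorem D5_c0 : CovD 1 gD5 [(8171552768, 842006528), (137438953472, 137438953472), (863610339328, 863610339328)] :=
  covD_split 2 (by decide +kernel) D5_c0_t1 D5_c0_t2

theorem E5_c0_t2 : CovD 1 gE5 [(8171552768, 842006528), (137438953472, 137438953472), (215902584832, 215902584832)] :=
  covD_split 2 (by decide +kernel) E5_c0_t3 E5_c0_t4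

theorem E5_c0_t1 : CovD 1 gE5 [(8171552768, 842006528), (137438953472, 137438953472), (431805169664, 431805169664)] :=
  covD_split 2 (by decide +kernel) E5_c0_t2 E5_c0_t5

theorem E5_c0 : CovD 1 gE5 [(8171552768, 842006528), (137438953472, 137438953472), (863610339328, 863610339328)] :=
  covD_split 2 (by decide +kernel) E5_c0_t1 E5_c0_t6

end Pool.Agent.helper14.NS.Q122a
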