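import Pool.Agent.helper14.NS.Q122a.PN13

/-!
Generated: certificates.
-/

namespace Pool.Agent.helper14.NS.Q122a

open Pool.Agent.helper31.IA (Z)
open Pool.Agent.helper31.IX (Op XOps runX Cov CovD cov_split covD_split)
open Pool.Agent.helper31.IC (TD)
open Pool.Agent.helper63.RG (reloc)
open Pool.Agent.helper63.NF hiding TD
open Pool.Agent.helper4.NS
open Pool.Agent.helper14.CF (xE covD_E)
open Pool.Agent.helper14.NR (share)

mutual
theorem A13_c0_t4 : CovD 1 gA13 [(8171552768, 842006528), (137438953472, 137438953472), (68719476736, 68719476736)] :=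
  covD_E kA13_eq (.n 2 (.l 2) (.n 1 (.n 2 (.l 2) (.n 1 (.n 2 (.l 2) (.n 1 (.n 1 (.l 0) (.l 0)) (.l 0))) (.l 0))) (.l 0)))
    [(8171552768, 842006528), (137438953472, 137438953472), (68719476736, 68719476736)] rfl (by decide +kernel)
theorem A13_c0_t6 : CovD 1 gA13 [(8171552768, 842006528), (68719476736, 68719476736), (206158430208, 68719476736)] :=
  covD_E kA13_eq (.n 1 (.n 1 (.n 1 (.n 2 (.n 1 (.l 0) (.l 0)) (.l 0)) (.n 2 (.n 1 (.l 0) (.l 0)) (.l 0))) (.n 1 (.n 2 (.n 1 (.l 0) (.l 0)) (.l 0)) (.n 2 (.l 0) (.l 0)))) (.n 1 (.n 2 (.l 0) (.l 0)) (.n 1 (.l 0) (.l 0))))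
    [(8171552768, 842006528), (68719476736, 68719476736), (206158430208, 68719476736)] rfl (by decide +kernel)
end

mutual
theorem A13_c0_t7 : CovD 1 gA13 [(8171552768, 842006528), (206158430208, 68719476736), (206158430208, 68719476736)] :=
  covD_E kA13_eq (.n 1 (.n 0 (.l 0) (.l 0)) (.l 0))
    [(8171552768, 842006528), (206158430208, 68719476736), (206158430208, 68719476736)] rfl (by decide +kernel)
theorem A13_c0_t9 : CovD 1 gA13 [(8171552768, 842006528), (68719476736, 68719476736), (412316860416, 137438953472)] :=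
  covD_E kA13_eq (.n 1 (.n 1 (.n 2 (.n 2 (.l 0) (.l 0)) (.l 0)) (.n 2 (.n 2 (.l 0) (.l 0)) (.l 0))) (.n 1 (.n 2 (.n 1 (.l 0) (.l 0)) (.l 0)) (.n 2 (.n 0 (.l 0) (.l 0)) (.l 0))))
    [(8171552768, 842006528), (68719476736, 68719476736), (412316860416, 137438953472)] rfl (by decide +kernel)
end

mutual
theorem A13_c0_t10 : CovD 1 gA13 [(8171552768, 842006528), (206158430208, 68719476736), (412316860416, 137438953472)] :=
  covD_E kA13_eq (.n 1 (.n 0 (.n 2 (.l 0) (.l 0)) (.n 2 (.l 0) (.l 0))) (.n 2 (.l 0) (.l 0)))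
    [(8171552768, 842006528), (206158430208, 68719476736), (412316860416, 137438953472)] rfl (by decide +kernel)
theorem A13_c0_t11 : CovD 1 gA13 [(8171552768, 842006528), (137438953472, 137438953472), (824633720832, 274877906944)] :=
  covD_E kA13_eq (.n 2 (.n 1 (.n 1 (.n 2 (.n 0 (.l 0) (.l 0)) (.l 0)) (.n 2 (.l 0) (.l 0))) (.n 1 (.n 2 (.l 0) (.l 0)) (.n 2 (.l 0) (.l 0)))) (.n 1 (.n 1 (.l 0) (.n 0 (.l 0) (.l 0))) (.n 1 (.n 1 (.l 0) (.l 0)) (.n 1 (.l 0) (.l 0)))))
    [(8171552768, 842006528), (137438953472, 137438953472), (824633720832, 274877906944)] rfl (by decide +kernel)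
end

mutual
theorem A13_c0_t13 : CovD 1 gA13 [(8171552768, 842006528), (137438953472, 137438953472), (1374389534720, 274877906944)] :=
  covD_E kA13_eq (.n 2 (.n 1 (.n 0 (.l 0) (.l 0)) (.n 1 (.l 0) (.l 0))) (.n 0 (.n 1 (.l 0) (.l 0)) (.n 1 (.l 0) (.l 0))))
    [(8171552768, 842006528), (137438953472, 137438953472), (1374389534720, 274877906944)] rfl (by decide +kernel)
theorem A13_c0_t14 : CovD 1 gA13 [(8171552768, 842006528), (137438953472, 137438953472), (1924145348608, 274877906944)] :=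
  covD_E kA13_eq (.n 2 (.n 0 (.n 1 (.l 0) (.l 0)) (.n 1 (.l 0) (.l 0))) (.n 1 (.n 2 (.l 0) (.l 0)) (.n 2 (.l 0) (.n 0 (.l 0) (.l 0)))))
    [(8171552768, 842006528), (137438953472, 137438953472), (1924145348608, 274877906944)] rfl (by decide +kernel)
end

mutual
theorem A13_c1_t2 : CovD 1 gA13 [(8171552768, 842006528), (137438953472, 137438953472), (2336462209024, 137438953472)] :=
  covD_E kA13_eq (.n 0 (.n 1 (.n 1 (.l 0) (.l 0)) (.n 2 (.l 0) (.l 0))) (.n 1 (.n 2 (.l 0) (.l 0)) (.n 2 (.l 0) (.n 0 (.l 0) (.l 0)))))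
    [(8171552768, 842006528), (137438953472, 137438953472), (2336462209024, 137438953472)] rfl (by decide +kernel)
theorem A13_c1_t4 : CovD 1 gA13 [(7750549504, 421003264), (137438953472, 137438953472), (2611340115968, 137438953472)] :=
  covD_E kA13_eq (.n 1 (.n 2 (.n 0 (.l 0) (.l 0)) (.n 2 (.l 0) (.n 0 (.l 0) (.l 0)))) (.n 1 (.n 2 (.l 0) (.n 2 (.l 0) (.l 0))) (.n 2 (.l 0) (.n 2 (.l 0) (.l 0)))))
    [(7750549504, 421003264), (137438953472, 137438953472), (2611340115968, 137438953472)] rfl (by decide +kernel)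
end

mutual
theorem A13_c1_t5 : CovD 1 gA13 [(8592556032, 421003264), (137438953472, 137438953472), (2611340115968, 137438953472)] :=
  covD_E kA13_eq (.n 1 (.n 1 (.n 2 (.l 0) (.n 2 (.l 0) (.l 0))) (.n 2 (.l 0) (.n 2 (.l 0) (.l 0)))) (.n 1 (.n 2 (.l 0) (.n 2 (.l 0) (.l 0))) (.n 2 (.l 0) (.n 2 (.l 0) (.l 0)))))
    [(8592556032, 421003264), (137438953472, 137438953472), (2611340115968, 137438953472)] rfl (by decide +kernel)
theorem A13_c1_t10 : CovD 1 gA13 [(7750549504, 421003264), (34359738368, 34359738368), (2886218022912, 137438953472)] :=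
  covD_E kA13_eq (.n 2 (.n 2 (.l 0) (.n 0 (.l 0) (.l 0))) (.n 2 (.n 2 (.l 0) (.n 0 (.l 0) (.l 0))) (.n 0 (.n 2 (.l 0) (.n 0 (.l 0) (.l 0))) (.n 2 (.l 0) (.n 0 (.l 0) (.l 0))))))
    [(7750549504, 421003264), (34359738368, 34359738368), (2886218022912, 137438953472)] rfl (by decide +kernel)
end

mutual
theorem A13_c1_t11 : CovD 1 gA13 [(7750549504, 421003264), (103079215104, 34359738368), (2886218022912, 137438953472)] :=
  covD_E kA13_eq (.n 2 (.n 2 (.l 0) (.n 0 (.l 0) (.l 0))) (.n 2 (.n 2 (.l 0) (.n 0 (.l 0) (.l 0))) (.n 0 (.n 2 (.l 0) (.n 1 (.l 0) (.l 0))) (.n 2 (.l 0) (.l 0)))))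
    [(7750549504, 421003264), (103079215104, 34359738368), (2886218022912, 137438953472)] rfl (by decide +kernel)
theorem A13_c1_t13 : CovD 1 gA13 [(7750549504, 421003264), (171798691840, 34359738368), (2886218022912, 137438953472)] :=
  covD_E kA13_eq (.n 2 (.n 2 (.l 0) (.n 2 (.l 0) (.l 0))) (.n 0 (.n 2 (.n 2 (.l 0) (.l 0)) (.n 2 (.n 1 (.l 0) (.l 0)) (.n 2 (.l 0) (.l 0)))) (.n 2 (.n 2 (.l 0) (.l 0)) (.n 2 (.l 0) (.n 0 (.l 0) (.l 0))))))
    [(7750549504, 421003264), (171798691840, 34359738368), (2886218022912, 137438953472)] rfl (by decide +kernel)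
end

mutual
theorem A13_c1_t14 : CovD 1 gA13 [(7750549504, 421003264), (240518168576, 34359738368), (2886218022912, 137438953472)] :=
  covD_E kA13_eq (.n 2 (.n 2 (.n 0 (.l 0) (.l 0)) (.n 2 (.l 0) (.l 0))) (.n 2 (.n 1 (.n 2 (.l 0) (.l 0)) (.n 2 (.l 0) (.l 0))) (.n 2 (.n 0 (.n 1 (.l 0) (.l 0)) (.l 0)) (.n 1 (.n 2 (.l 0) (.l 0)) (.n 0 (.l 0) (.l 0))))))
    [(7750549504, 421003264), (240518168576, 34359738368), (2886218022912, 137438953472)] rfl (by decide +kernel)
theorem A13_c1_t18 : CovD 1 gA13 [(8592556032, 421003264), (34359738368, 34359738368), (2817498546176, 68719476736)] :=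
  covD_E kA13_eq (.n 2 (.n 2 (.l 0) (.l 0)) (.n 2 (.l 0) (.n 0 (.l 0) (.l 0))))
    [(8592556032, 421003264), (34359738368, 34359738368), (2817498546176, 68719476736)] rfl (by decide +kernel)
end

mutual
theorem A13_c1_t19 : CovD 1 gA13 [(8592556032, 421003264), (34359738368, 34359738368), (2954937499648, 68719476736)] :=
  covD_E kA13_eq (.n 2 (.n 2 (.n 2 (.l 0) (.l 0)) (.n 0 (.l 0) (.n 1 (.l 0) (.l 0)))) (.n 0 (.n 0 (.n 2 (.l 0) (.l 0)) (.n 2 (.l 0) (.l 0))) (.n 2 (.n 2 (.l 0) (.l 0)) (.n 2 (.l 0) (.l 0)))))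
    [(8592556032, 421003264), (34359738368, 34359738368), (2954937499648, 68719476736)] rfl (by decide +kernel)
theorem A13_c1_t20 : CovD 1 gA13 [(8592556032, 421003264), (103079215104, 34359738368), (2886218022912, 137438953472)] :=
  covD_E kA13_eq (.n 2 (.n 2 (.l 0) (.n 2 (.l 0) (.l 0))) (.n 2 (.n 2 (.l 0) (.n 0 (.l 0) (.l 0))) (.n 0 (.n 2 (.l 0) (.l 0)) (.n 2 (.l 0) (.l 0)))))
    [(8592556032, 421003264), (103079215104, 34359738368), (2886218022912, 137438953472)] rfl (by decide +kernel)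
end

mutual
theorem A13_c1_t22 : CovD 1 gA13 [(8592556032, 421003264), (171798691840, 34359738368), (2886218022912, 137438953472)] :=
  covD_E kA13_eq (.n 2 (.n 2 (.l 0) (.n 2 (.l 0) (.l 0))) (.n 2 (.n 2 (.l 0) (.n 0 (.l 0) (.l 0))) (.n 0 (.n 2 (.l 0) (.l 0)) (.n 2 (.l 0) (.l 0)))))
    [(8592556032, 421003264), (171798691840, 34359738368), (2886218022912, 137438953472)] rfl (by decide +kernel)
theorem A13_c1_t23 : CovD 1 gA13 [(8592556032, 421003264), (240518168576, 34359738368), (2886218022912, 137438953472)] :=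
  covD_E kA13_eq (.n 2 (.n 2 (.l 0) (.n 1 (.l 0) (.l 0))) (.n 2 (.n 2 (.l 0) (.l 0)) (.n 2 (.l 0) (.n 0 (.l 0) (.l 0)))))
    [(8592556032, 421003264), (240518168576, 34359738368), (2886218022912, 137438953472)] rfl (by decide +kernel)
end

mutual
theorem A13_c1_t30 : CovD 1 gA13 [(7540047872, 210501632), (34359738368, 34359738368), (3058016714752, 34359738368)] :=
  covD_E kA13_eq (.n 2 (.n 2 (.l 0) (.l 0)) (.n 0 (.n 2 (.l 0) (.l 0)) (.n 2 (.l 0) (.l 0))))
    [(7540047872, 210501632), (34359738368, 34359738368), (3058016714752, 34359738368)] rfl (by decide +kernel)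
theorem A13_c1_t31 : CovD 1 gA13 [(7540047872, 210501632), (34359738368, 34359738368), (3126736191488, 34359738368)] :=
  covD_E kA13_eq (.n 2 (.n 1 (.n 2 (.l 0) (.n 0 (.l 0) (.l 0))) (.n 2 (.l 0) (.l 0))) (.n 0 (.n 2 (.n 1 (.l 0) (.l 0)) (.n 2 (.l 0) (.l 0))) (.n 2 (.l 0) (.l 0))))
    [(7540047872, 210501632), (34359738368, 34359738368), (3126736191488, 34359738368)] rfl (by decide +kernel)
end

mutual
theorem A13_c1_t33 : CovD 1 gA13 [(7540047872, 210501632), (34359738368, 34359738368), (3195455668224, 34359738368)] :=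
  covD_E kA13_eq (.n 0 (.n 2 (.n 2 (.n 2 (.l 0) (.l 0)) (.n 2 (.l 0) (.l 0))) (.n 1 (.n 2 (.l 0) (.l 0)) (.n 2 (.l 0) (.l 0)))) (.n 2 (.n 2 (.l 0) (.l 0)) (.n 2 (.l 0) (.l 0))))
    [(7540047872, 210501632), (34359738368, 34359738368), (3195455668224, 34359738368)] rfl (by decide +kernel)
theorem A13_c1_t34 : CovD 1 gA13 [(7540047872, 210501632), (34359738368, 34359738368), (3264175144960, 34359738368)] :=
  covD_E kA13_eq (.n 1 (.n 2 (.n 2 (.l 0) (.l 0)) (.n 2 (.l 0) (.l 0))) (.n 2 (.n 2 (.l 0) (.l 0)) (.n 2 (.l 0) (.l 0))))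
    [(7540047872, 210501632), (34359738368, 34359738368), (3264175144960, 34359738368)] rfl (by decide +kernel)
end

mutual
theorem A13_c1_t37 : CovD 1 gA13 [(7540047872, 210501632), (103079215104, 34359738368), (3058016714752, 34359738368)] :=
  covD_E kA13_eq (.n 2 (.n 2 (.l 0) (.l 0)) (.n 1 (.n 2 (.l 0) (.l 0)) (.n 2 (.l 0) (.l 0))))
    [(7540047872, 210501632), (103079215104, 34359738368), (3058016714752, 34359738368)] rfl (by decide +kernel)
theorem A13_c1_t38 : CovD 1 gA13 [(7540047872, 210501632), (103079215104, 34359738368), (3126736191488, 34359738368)] :=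
  covD_E kA13_eq (.n 2 (.n 1 (.n 2 (.l 0) (.l 0)) (.n 2 (.l 0) (.n 0 (.l 0) (.l 0)))) (.n 0 (.n 1 (.n 2 (.l 0) (.l 0)) (.n 2 (.l 0) (.n 0 (.l 0) (.l 0)))) (.n 2 (.l 0) (.l 0))))
    [(7540047872, 210501632), (103079215104, 34359738368), (3126736191488, 34359738368)] rfl (by decide +kernel)
end

mutual
theorem A13_c1_t40 : CovD 1 gA13 [(7540047872, 210501632), (103079215104, 34359738368), (3195455668224, 34359738368)] :=
  covD_E kA13_eq (.n 0 (.n 1 (.n 2 (.n 2 (.l 0) (.l 0)) (.n 2 (.l 0) (.l 0))) (.n 2 (.n 0 (.n 2 (.l 0) (.l 0)) (.n 2 (.l 0) (.l 0))) (.n 2 (.l 0) (.l 0)))) (.n 2 (.n 2 (.l 0) (.l 0)) (.n 2 (.l 0) (.l 0))))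
    [(7540047872, 210501632), (103079215104, 34359738368), (3195455668224, 34359738368)] rfl (by decide +kernel)
theorem A13_c1_t41 : CovD 1 gA13 [(7540047872, 210501632), (103079215104, 34359738368), (3264175144960, 34359738368)] :=
  covD_E kA13_eq (.n 2 (.n 1 (.n 2 (.l 0) (.l 0)) (.n 2 (.l 0) (.l 0))) (.n 0 (.n 2 (.l 0) (.l 0)) (.l 0)))
    [(7540047872, 210501632), (103079215104, 34359738368), (3264175144960, 34359738368)] rfl (by decide +kernel)
end

mutual
theorem A13_c1_t43 : CovD 1 gA13 [(7961051136, 210501632), (34359738368, 34359738368), (3161095929856, 137438953472)] :=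
  covD_E kA13_eq (.n 2 (.n 2 (.n 2 (.n 1 (.l 0) (.l 0)) (.n 2 (.l 0) (.l 0))) (.n 2 (.n 2 (.l 0) (.l 0)) (.n 2 (.l 0) (.l 0)))) (.n 2 (.n 2 (.n 2 (.l 0) (.l 0)) (.n 2 (.l 0) (.l 0))) (.n 2 (.n 0 (.l 0) (.l 0)) (.l 0))))
    [(7961051136, 210501632), (34359738368, 34359738368), (3161095929856, 137438953472)] rfl (by decide +kernel)
theorem A13_c1_t44 : CovD 1 gA13 [(7961051136, 210501632), (103079215104, 34359738368), (3161095929856, 137438953472)] :=
  covD_E kA13_eq (.n 2 (.n 2 (.n 1 (.n 2 (.l 0) (.l 0)) (.n 2 (.l 0) (.l 0))) (.n 2 (.n 2 (.l 0) (.l 0)) (.n 2 (.l 0) (.l 0)))) (.n 2 (.n 2 (.n 2 (.l 0) (.l 0)) (.n 1 (.l 0) (.l 0))) (.n 2 (.l 0) (.l 0))))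
    [(7961051136, 210501632), (103079215104, 34359738368), (3161095929856, 137438953472)] rfl (by decide +kernel)
end

mutual
theorem A13_c1_t48 : CovD 1 gA13 [(7750549504, 421003264), (154618822656, 17179869184), (3092376453120, 68719476736)] :=
  covD_E kA13_eq (.n 2 (.n 2 (.n 2 (.l 0) (.l 0)) (.n 0 (.n 2 (.l 0) (.l 0)) (.l 0))) (.n 0 (.n 2 (.n 2 (.l 0) (.n 0 (.l 0) (.l 0))) (.n 0 (.n 2 (.l 0) (.l 0)) (.n 2 (.l 0) (.l 0)))) (.n 2 (.l 0) (.l 0))))
    [(7750549504, 421003264), (154618822656, 17179869184), (3092376453120, 68719476736)] rfl (by decide +kernel)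
theorem A13_c1_t49 : CovD 1 gA13 [(7750549504, 421003264), (154618822656, 17179869184), (3229815406592, 68719476736)] :=
  covD_E kA13_eq (.n 2 (.n 0 (.n 2 (.n 0 (.n 2 (.l 0) (.l 0)) (.n 2 (.l 0) (.l 0))) (.n 2 (.n 0 (.l 0) (.l 0)) (.l 0))) (.n 2 (.l 0) (.l 0))) (.n 2 (.n 0 (.n 2 (.l 0) (.l 0)) (.l 0)) (.n 2 (.l 0) (.l 0))))
    [(7750549504, 421003264), (154618822656, 17179869184), (3229815406592, 68719476736)] rfl (by decide +kernel)
end

mutual
theorem A13_c1_t51 : CovD 1 gA13 [(7750549504, 421003264), (188978561024, 17179869184), (3092376453120, 68719476736)] :=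
  covD_E kA13_eq (.n 2 (.n 2 (.n 2 (.l 0) (.l 0)) (.n 0 (.n 2 (.l 0) (.l 0)) (.l 0))) (.n 0 (.n 2 (.n 2 (.l 0) (.l 0)) (.n 2 (.l 0) (.l 0))) (.n 2 (.l 0) (.l 0))))
    [(7750549504, 421003264), (188978561024, 17179869184), (3092376453120, 68719476736)] rfl (by decide +kernel)
theorem A13_c1_t52 : CovD 1 gA13 [(7750549504, 421003264), (188978561024, 17179869184), (3229815406592, 68719476736)] :=
  covD_E kA13_eq (.n 2 (.n 0 (.n 2 (.n 2 (.l 0) (.l 0)) (.n 2 (.l 0) (.l 0))) (.n 2 (.l 0) (.l 0))) (.n 2 (.n 2 (.l 0) (.l 0)) (.n 0 (.l 0) (.l 0))))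
    [(7750549504, 421003264), (188978561024, 17179869184), (3229815406592, 68719476736)] rfl (by decide +kernel)
end

mutual
theorem A13_c1_t55 : CovD 1 gA13 [(7750549504, 421003264), (223338299392, 17179869184), (3092376453120, 68719476736)] :=
  covD_E kA13_eq (.n 2 (.n 2 (.n 2 (.l 0) (.l 0)) (.n 0 (.n 2 (.l 0) (.l 0)) (.l 0))) (.n 0 (.n 2 (.n 2 (.l 0) (.l 0)) (.n 2 (.l 0) (.l 0))) (.n 2 (.l 0) (.l 0))))
    [(7750549504, 421003264), (223338299392, 17179869184), (3092376453120, 68719476736)] rfl (by decide +kernel)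
theorem A13_c1_t56 : CovD 1 gA13 [(7750549504, 421003264), (257698037760, 17179869184), (3092376453120, 68719476736)] :=
  covD_E kA13_eq (.n 2 (.n 2 (.n 0 (.l 0) (.l 0)) (.n 2 (.l 0) (.l 0))) (.n 2 (.n 2 (.l 0) (.l 0)) (.n 0 (.l 0) (.l 0))))
    [(7750549504, 421003264), (257698037760, 17179869184), (3092376453120, 68719476736)] rfl (by decide +kernel)
end

mutual
theorem A13_c1_t57 : CovD 1 gA13 [(7750549504, 421003264), (240518168576, 34359738368), (3229815406592, 68719476736)] :=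
  covD_E kA13_eq (.n 2 (.n 0 (.n 1 (.n 2 (.n 2 (.l 0) (.l 0)) (.n 1 (.l 0) (.l 0))) (.n 2 (.l 0) (.l 0))) (.n 2 (.l 0) (.l 0))) (.n 1 (.n 0 (.n 2 (.l 0) (.l 0)) (.l 0)) (.n 2 (.l 0) (.l 0))))
    [(7750549504, 421003264), (240518168576, 34359738368), (3229815406592, 68719476736)] rfl (by decide +kernel)
theorem A13_c1_t61 : CovD 1 gA13 [(8382054400, 210501632), (34359738368, 34359738368), (3161095929856, 137438953472)] :=
  covD_E kA13_eq (.n 2 (.n 2 (.n 2 (.n 1 (.l 0) (.l 0)) (.n 2 (.l 0) (.l 0))) (.n 2 (.n 2 (.l 0) (.l 0)) (.n 2 (.l 0) (.l 0)))) (.n 2 (.n 2 (.n 0 (.l 0) (.l 0)) (.l 0)) (.n 2 (.l 0) (.l 0))))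
    [(8382054400, 210501632), (34359738368, 34359738368), (3161095929856, 137438953472)] rfl (by decide +kernel)
end

mutual
theorem A13_c1_t62 : CovD 1 gA13 [(8803057664, 210501632), (34359738368, 34359738368), (3161095929856, 137438953472)] :=
  covD_E kA13_eq (.n 2 (.n 2 (.n 2 (.n 2 (.l 0) (.l 0)) (.n 2 (.l 0) (.l 0))) (.n 2 (.n 2 (.l 0) (.l 0)) (.n 2 (.l 0) (.l 0)))) (.n 2 (.n 2 (.n 0 (.l 0) (.l 0)) (.l 0)) (.n 0 (.l 0) (.l 0))))
    [(8803057664, 210501632), (34359738368, 34359738368), (3161095929856, 137438953472)] rfl (by decide +kernel)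
theorem A13_c1_t63 : CovD 1 gA13 [(8592556032, 421003264), (103079215104, 34359738368), (3161095929856, 137438953472)] :=
  covD_E kA13_eq (.n 2 (.n 2 (.n 0 (.n 2 (.l 0) (.l 0)) (.n 2 (.l 0) (.l 0))) (.n 2 (.n 0 (.n 0 (.l 0) (.l 0)) (.l 0)) (.n 2 (.l 0) (.l 0)))) (.n 2 (.n 0 (.n 2 (.l 0) (.l 0)) (.n 2 (.l 0) (.l 0))) (.n 2 (.l 0) (.l 0))))
    [(8592556032, 421003264), (103079215104, 34359738368), (3161095929856, 137438953472)] rfl (by decide +kernel)
end

mutual
theorem A13_c1_t65 : CovD 1 gA13 [(8592556032, 421003264), (171798691840, 34359738368), (3161095929856, 137438953472)] :=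
  covD_E kA13_eq (.n 2 (.n 0 (.n 2 (.n 2 (.l 0) (.l 0)) (.n 2 (.l 0) (.l 0))) (.n 2 (.n 2 (.l 0) (.l 0)) (.n 2 (.l 0) (.l 0)))) (.n 2 (.n 0 (.n 2 (.l 0) (.l 0)) (.n 1 (.l 0) (.l 0))) (.n 2 (.l 0) (.l 0))))
    [(8592556032, 421003264), (171798691840, 34359738368), (3161095929856, 137438953472)] rfl (by decide +kernel)
theorem A13_c1_t66 : CovD 1 gA13 [(8592556032, 421003264), (240518168576, 34359738368), (3161095929856, 137438953472)] :=
  covD_E kA13_eq (.n 2 (.n 0 (.n 2 (.n 2 (.l 0) (.l 0)) (.n 2 (.l 0) (.l 0))) (.n 1 (.n 2 (.l 0) (.l 0)) (.n 2 (.l 0) (.l 0)))) (.n 2 (.n 2 (.l 0) (.l 0)) (.n 0 (.l 0) (.l 0))))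
    [(8592556032, 421003264), (240518168576, 34359738368), (3161095929856, 137438953472)] rfl (by decide +kernel)
end

theorem A13_c0_t5 : CovD 1 gA13 [(8171552768, 842006528), (137438953472, 137438953472), (206158430208, 68719476736)] :=
  covD_split 1 (by decide +kernel) A13_c0_t6 A13_c0_t7

theorem A13_c0_t3 : CovD 1 gA13 [(8171552768, 842006528), (137438953472, 137438953472), (137438953472, 137438953472)] :=
  covD_split 2 (by decide +kernel) A13_c0_t4 A13_c0_t5

theorem A13_c0_t8 : CovD 1 gA13 [(8171552768, 842006528), (137438953472, 137438953472), (412316860416, 137438953472)] :=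
  covD_split 1 (by decide +kernel) A13_c0_t9 A13_c0_t10

theorem A13_c0_t2 : CovD 1 gA13 [(8171552768, 842006528), (137438953472, 137438953472), (274877906944, 274877906944)] :=
  covD_split 2 (by decide +kernel) A13_c0_t3 A13_c0_t8

theorem A13_c0_t1 : CovD 1 gA13 [(8171552768, 842006528), (137438953472, 137438953472), (549755813888, 549755813888)] :=
  covD_split 2 (by decide +kernel) A13_c0_t2 A13_c0_t11

theorem A13_c0_t12 : CovD 1 gA13 [(8171552768, 842006528), (137438953472, 137438953472), (1649267441664, 549755813888)] :=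
  covD_split 2 (by decide +kernel) A13_c0_t13 A13_c0_t14

theorem A13_c0 : CovD 1 gA13 [(8171552768, 842006528), (137438953472, 137438953472), (1099511627776, 1099511627776)] :=
  covD_split 2 (by decide +kernel) A13_c0_t1 A13_c0_t12

theorem A13_c1_t3 : CovD 1 gA13 [(8171552768, 842006528), (137438953472, 137438953472), (2611340115968, 137438953472)] :=
  covD_split 0 (by decide +kernel) A13_c1_t4 A13_c1_t5

theorem A13_c1_t1 : CovD 1 gA13 [(8171552768, 842006528), (137438953472, 137438953472), (2473901162496, 274877906944)] :=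
  covD_split 2 (by decide +kernel) A13_c1_t2 A13_c1_t3

theorem A13_c1_t9 : CovD 1 gA13 [(7750549504, 421003264), (68719476736, 68719476736), (2886218022912, 137438953472)] :=
  covD_split 1 (by decide +kernel) A13_c1_t10 A13_c1_t11

theorem A13_c1_t12 : CovD 1 gA13 [(7750549504, 421003264), (206158430208, 68719476736), (2886218022912, 137438953472)] :=
  covD_split 1 (by decide +kernel) A13_c1_t13 A13_c1_t14

theorem A13_c1_t8 : CovD 1 gA13 [(7750549504, 421003264), (137438953472, 137438953472), (2886218022912, 137438953472)] :=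
  covD_split 1 (by decide +kernel) A13_c1_t9 A13_c1_t12

theorem A13_c1_t17 : CovD 1 gA13 [(8592556032, 421003264), (34359738368, 34359738368), (2886218022912, 137438953472)] :=
  covD_split 2 (by decide +kernel) A13_c1_t18 A13_c1_t19

theorem A13_c1_t16 : CovD 1 gA13 [(8592556032, 421003264), (68719476736, 68719476736), (2886218022912, 137438953472)] :=
  covD_split 1 (by decide +kernel) A13_c1_t17 A13_c1_t20

theorem A13_c1_t21 : CovD 1 gA13 [(8592556032, 421003264), (206158430208, 68719476736), (2886218022912, 137438953472)] :=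
  covD_split 1 (by decide +kernel) A13_c1_t22 A13_c1_t23

theorem A13_c1_t15 : CovD 1 gA13 [(8592556032, 421003264), (137438953472, 137438953472), (2886218022912, 137438953472)] :=
  covD_split 1 (by decide +kernel) A13_c1_t16 A13_c1_t21

theorem A13_c1_t7 : CovD 1 gA13 [(8171552768, 842006528), (137438953472, 137438953472), (2886218022912, 137438953472)] :=
  covD_split 0 (by decide +kernel) A13_c1_t8 A13_c1_t15

theorem A13_c1_t29 : CovD 1 gA13 [(7540047872, 210501632), (34359738368, 34359738368), (3092376453120, 68719476736)] :=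
  covD_split 2 (by decide +kernel) A13_c1_t30 A13_c1_t31

theorem A13_c1_t32 : CovD 1 gA13 [(7540047872, 210501632), (34359738368, 34359738368), (3229815406592, 68719476736)] :=
  covD_split 2 (by decide +kernel) A13_c1_t33 A13_c1_t34

theorem A13_c1_t28 : CovD 1 gA13 [(7540047872, 210501632), (34359738368, 34359738368), (3161095929856, 137438953472)] :=
  covD_split 2 (by decide +kernel) A13_c1_t29 A13_c1_t32

theorem A13_c1_t36 : CovD 1 gA13 [(7540047872, 210501632), (103079215104, 34359738368), (3092376453120, 68719476736)] :=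
  covD_split 2 (by decide +kernel) A13_c1_t37 A13_c1_t38

theorem A13_c1_t39 : CovD 1 gA13 [(7540047872, 210501632), (103079215104, 34359738368), (3229815406592, 68719476736)] :=
  covD_split 2 (by decide +kernel) A13_c1_t40 A13_c1_t41

theorem A13_c1_t35 : CovD 1 gA13 [(7540047872, 210501632), (103079215104, 34359738368), (3161095929856, 137438953472)] :=
  covD_split 2 (by decide +kernel) A13_c1_t36 A13_c1_t39

theorem A13_c1_t27 : CovD 1 gA13 [(7540047872, 210501632), (68719476736, 68719476736), (3161095929856, 137438953472)] :=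
  covD_split 1 (by decide +kernel) A13_c1_t28 A13_c1_t35

theorem A13_c1_t42 : CovD 1 gA13 [(7961051136, 210501632), (68719476736, 68719476736), (3161095929856, 137438953472)] :=
  covD_split 1 (by decide +kernel) A13_c1_t43 A13_c1_t44

theorem A13_c1_t26 : CovD 1 gA13 [(7750549504, 421003264), (68719476736, 68719476736), (3161095929856, 137438953472)] :=
  covD_split 0 (by decide +kernel) A13_c1_t27 A13_c1_t42

theorem A13_c1_t47 : CovD 1 gA13 [(7750549504, 421003264), (154618822656, 17179869184), (3161095929856, 137438953472)] :=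
  covD_split 2 (by decide +kernel) A13_c1_t48 A13_c1_t49

theorem A13_c1_t50 : CovD 1 gA13 [(7750549504, 421003264), (188978561024, 17179869184), (3161095929856, 137438953472)] :=
  covD_split 2 (by decide +kernel) A13_c1_t51 A13_c1_t52

theorem A13_c1_t46 : CovD 1 gA13 [(7750549504, 421003264), (171798691840, 34359738368), (3161095929856, 137438953472)] :=
  covD_split 1 (by decide +kernel) A13_c1_t47 A13_c1_t50

theorem A13_c1_t54 : CovD 1 gA13 [(7750549504, 421003264), (240518168576, 34359738368), (3092376453120, 68719476736)] :=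
  covD_split 1 (by decide +kernel) A13_c1_t55 A13_c1_t56

theorem A13_c1_t53 : CovD 1 gA13 [(7750549504, 421003264), (240518168576, 34359738368), (3161095929856, 137438953472)] :=
  covD_split 2 (by decide +kernel) A13_c1_t54 A13_c1_t57

theorem A13_c1_t45 : CovD 1 gA13 [(7750549504, 421003264), (206158430208, 68719476736), (3161095929856, 137438953472)] :=
  covD_split 1 (by decide +kernel) A13_c1_t46 A13_c1_t53

theorem A13_c1_t25 : CovD 1 gA13 [(7750549504, 421003264), (137438953472, 137438953472), (3161095929856, 137438953472)] :=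
  covD_split 1 (by decide +kernel) A13_c1_t26 A13_c1_t45

theorem A13_c1_t60 : CovD 1 gA13 [(8592556032, 421003264), (34359738368, 34359738368), (3161095929856, 137438953472)] :=
  covD_split 0 (by decide +kernel) A13_c1_t61 A13_c1_t62

theorem A13_c1_t59 : CovD 1 gA13 [(8592556032, 421003264), (68719476736, 68719476736), (3161095929856, 137438953472)] :=
  covD_split 1 (by decide +kernel) A13_c1_t60 A13_c1_t63

theorem A13_c1_t64 : CovD 1 gA13 [(8592556032, 421003264), (206158430208, 68719476736), (3161095929856, 137438953472)] :=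
  covD_split 1 (by decide +kernel) A13_c1_t65 A13_c1_t66

theorem A13_c1_t58 : CovD 1 gA13 [(8592556032, 421003264), (137438953472, 137438953472), (3161095929856, 137438953472)] :=
  covD_split 1 (by decide +kernel) A13_c1_t59 A13_c1_t64

theorem A13_c1_t24 : CovD 1 gA13 [(8171552768, 842006528), (137438953472, 137438953472), (3161095929856, 137438953472)] :=
  covD_split 0 (by decide +kernel) A13_c1_t25 A13_c1_t58

theorem A13_c1_t6 : CovD 1 gA13 [(8171552768, 842006528), (137438953472, 137438953472), (3023656976384, 274877906944)] :=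
  covD_split 2 (by decide +kernel) A13_c1_t7 A13_c1_t24

theorem A13_c1 : CovD 1 gA13 [(8171552768, 842006528), (137438953472, 137438953472), (2748779069440, 549755813888)] :=
  covD_split 2 (by decide +kernel) A13_c1_t1 A13_c1_t6

end Pool.Agent.helper14.NS.Q122a
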