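import Pool.Agent.helper14.NS.Q122a.PZ

/-!
Generated: certificates.
-/

namespace Pool.Agent.helper14.NS.Q122a

open Pool.Agent.helper31.IA (Z)
open Pool.Agent.helper31.IX (Op XOps runX Cov CovD cov_split covD_split)
open Pool.Agent.helper31.IC (TD)
open Pool.Agent.helper63.RG (reloc)
open Pool.Agent.helper63.NF hiding TD
open Pool.Agent.helper4.NS
open Pool.Agent.helper14.CF (xE covD_E)
open Pool.Agent.helper14.NR (share)

mutual
theorem Z_c0_t4 : CovD 1 gZ [(8171552768, 842006528), (34359738368, 34359738368), (169737715712, 114762973184)] :=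
  covD_E kZ_eq (.n 2 (.n 2 (.n 1 (.n 2 (.n 2 (.l 0) (.l 0)) (.l 0)) (.n 2 (.n 1 (.l 0) (.l 0)) (.l 0))) (.n 2 (.n 0 (.l 0) (.l 0)) (.l 0))) (.n 0 (.n 2 (.l 0) (.l 0)) (.n 2 (.l 0) (.l 0))))
    [(8171552768, 842006528), (34359738368, 34359738368), (169737715712, 114762973184)] rfl (by decide +kernel)
theorem Z_c0_t5 : CovD 1 gZ [(8171552768, 842006528), (34359738368, 34359738368), (399263662080, 114762973184)] :=
  covD_E kZ_eq (.n 2 (.n 1 (.n 2 (.l 0) (.l 0)) (.n 2 (.l 0) (.l 0))) (.n 2 (.n 2 (.l 0) (.n 0 (.l 0) (.l 0))) (.n 0 (.n 2 (.l 0) (.l 0)) (.n 2 (.l 0) (.l 0)))))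
    [(8171552768, 842006528), (34359738368, 34359738368), (399263662080, 114762973184)] rfl (by decide +kernel)
end

mutual
theorem Z_c0_t7 : CovD 1 gZ [(8171552768, 842006528), (34359738368, 34359738368), (628789608448, 114762973184)] :=
  covD_E kZ_eq (.n 2 (.n 1 (.n 2 (.n 2 (.l 0) (.l 0)) (.n 2 (.l 0) (.l 0))) (.n 2 (.n 2 (.l 0) (.l 0)) (.n 2 (.l 0) (.l 0)))) (.n 2 (.n 1 (.n 2 (.l 0) (.l 0)) (.n 2 (.l 0) (.l 0))) (.n 2 (.n 2 (.l 0) (.l 0)) (.n 2 (.l 0) (.l 0)))))
    [(8171552768, 842006528), (34359738368, 34359738368), (628789608448, 114762973184)] rfl (by decide +kernel)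
theorem Z_c0_t9 : CovD 1 gZ [(8171552768, 842006528), (34359738368, 34359738368), (800934068224, 57381486592)] :=
  covD_E kZ_eq (.n 2 (.n 2 (.n 2 (.l 0) (.l 0)) (.n 2 (.l 0) (.l 0))) (.n 2 (.n 2 (.l 0) (.l 0)) (.n 0 (.n 0 (.l 0) (.l 0)) (.l 0))))
    [(8171552768, 842006528), (34359738368, 34359738368), (800934068224, 57381486592)] rfl (by decide +kernel)
end

mutual
theorem Z_c0_t10 : CovD 1 gZ [(8171552768, 842006528), (34359738368, 34359738368), (915697041408, 57381486592)] :=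
  covD_E kZ_eq (.n 2 (.n 0 (.n 0 (.n 2 (.l 0) (.l 0)) (.n 2 (.l 0) (.l 0))) (.n 2 (.l 0) (.l 0))) (.n 2 (.n 0 (.n 0 (.l 0) (.l 0)) (.l 0)) (.n 2 (.l 0) (.n 0 (.l 0) (.l 0)))))
    [(8171552768, 842006528), (34359738368, 34359738368), (915697041408, 57381486592)] rfl (by decide +kernel)
theorem Z_c0_t13 : CovD 1 gZ [(8171552768, 842006528), (103079215104, 34359738368), (169737715712, 114762973184)] :=
  covD_E kZ_eq (.n 2 (.n 2 (.n 1 (.n 2 (.l 0) (.l 0)) (.n 2 (.l 0) (.l 0))) (.n 2 (.l 0) (.l 0))) (.n 1 (.n 2 (.l 0) (.l 0)) (.n 2 (.l 0) (.l 0))))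
    [(8171552768, 842006528), (103079215104, 34359738368), (169737715712, 114762973184)] rfl (by decide +kernel)
end

mutual
theorem Z_c0_t14 : CovD 1 gZ [(8171552768, 842006528), (103079215104, 34359738368), (399263662080, 114762973184)] :=
  covD_E kZ_eq (.n 2 (.n 2 (.n 2 (.l 0) (.l 0)) (.n 2 (.l 0) (.n 0 (.l 0) (.l 0)))) (.n 2 (.n 1 (.n 2 (.l 0) (.l 0)) (.n 2 (.l 0) (.l 0))) (.n 2 (.n 2 (.l 0) (.l 0)) (.n 0 (.n 1 (.l 0) (.l 0)) (.l 0)))))
    [(8171552768, 842006528), (103079215104, 34359738368), (399263662080, 114762973184)] rfl (by decide +kernel)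
theorem Z_c0_t17 : CovD 1 gZ [(8171552768, 842006528), (103079215104, 34359738368), (571408121856, 57381486592)] :=
  covD_E kZ_eq (.n 2 (.n 0 (.n 1 (.n 2 (.l 0) (.l 0)) (.n 2 (.l 0) (.l 0))) (.n 2 (.l 0) (.l 0))) (.n 2 (.n 2 (.l 0) (.l 0)) (.n 2 (.l 0) (.l 0))))
    [(8171552768, 842006528), (103079215104, 34359738368), (571408121856, 57381486592)] rfl (by decide +kernel)
end

mutual
theorem Z_c0_t18 : CovD 1 gZ [(8171552768, 842006528), (103079215104, 34359738368), (686171095040, 57381486592)] :=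
  covD_E kZ_eq (.n 2 (.n 2 (.n 2 (.l 0) (.l 0)) (.n 0 (.n 1 (.l 0) (.l 0)) (.l 0))) (.n 0 (.n 1 (.n 2 (.l 0) (.l 0)) (.n 2 (.l 0) (.l 0))) (.n 2 (.l 0) (.l 0))))
    [(8171552768, 842006528), (103079215104, 34359738368), (686171095040, 57381486592)] rfl (by decide +kernel)
theorem Z_c0_t20 : CovD 1 gZ [(8171552768, 842006528), (103079215104, 34359738368), (800934068224, 57381486592)] :=
  covD_E kZ_eq (.n 2 (.n 2 (.n 2 (.l 0) (.l 0)) (.n 0 (.l 0) (.l 0))) (.n 0 (.n 2 (.l 0) (.l 0)) (.n 2 (.l 0) (.l 0))))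
    [(8171552768, 842006528), (103079215104, 34359738368), (800934068224, 57381486592)] rfl (by decide +kernel)
end

mutual
theorem Z_c0_t21 : CovD 1 gZ [(8171552768, 842006528), (103079215104, 34359738368), (915697041408, 57381486592)] :=
  covD_E kZ_eq (.n 0 (.n 2 (.n 0 (.n 2 (.l 0) (.l 0)) (.n 2 (.l 0) (.l 0))) (.n 2 (.n 0 (.l 0) (.l 0)) (.l 0))) (.n 2 (.n 2 (.l 0) (.l 0)) (.n 2 (.l 0) (.l 0))))
    [(8171552768, 842006528), (103079215104, 34359738368), (915697041408, 57381486592)] rfl (by decide +kernel)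
theorem Z_c0_t26 : CovD 1 gZ [(8171552768, 842006528), (154618822656, 17179869184), (169737715712, 114762973184)] :=
  covD_E kZ_eq (.n 2 (.n 2 (.n 2 (.l 0) (.l 0)) (.n 0 (.l 0) (.l 0))) (.n 0 (.n 2 (.l 0) (.l 0)) (.n 2 (.l 0) (.l 0))))
    [(8171552768, 842006528), (154618822656, 17179869184), (169737715712, 114762973184)] rfl (by decide +kernel)
end

mutual
theorem Z_c0_t27 : CovD 1 gZ [(8171552768, 842006528), (154618822656, 17179869184), (399263662080, 114762973184)] :=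
  covD_E kZ_eq (.n 2 (.n 2 (.n 2 (.l 0) (.l 0)) (.n 2 (.l 0) (.l 0))) (.n 0 (.n 2 (.n 2 (.l 0) (.l 0)) (.n 2 (.l 0) (.l 0))) (.n 2 (.n 2 (.l 0) (.l 0)) (.n 2 (.l 0) (.l 0)))))
    [(8171552768, 842006528), (154618822656, 17179869184), (399263662080, 114762973184)] rfl (by decide +kernel)
theorem Z_c0_t29 : CovD 1 gZ [(8171552768, 842006528), (188978561024, 17179869184), (169737715712, 114762973184)] :=
  covD_E kZ_eq (.n 2 (.n 2 (.n 2 (.l 0) (.l 0)) (.n 2 (.l 0) (.l 0))) (.n 2 (.n 2 (.l 0) (.l 0)) (.n 2 (.l 0) (.l 0))))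
    [(8171552768, 842006528), (188978561024, 17179869184), (169737715712, 114762973184)] rfl (by decide +kernel)
end

mutual
theorem Z_c0_t30 : CovD 1 gZ [(8171552768, 842006528), (188978561024, 17179869184), (399263662080, 114762973184)] :=
  covD_E kZ_eq (.n 2 (.n 2 (.n 2 (.l 0) (.l 0)) (.n 2 (.l 0) (.l 0))) (.n 0 (.n 2 (.n 2 (.l 0) (.l 0)) (.n 2 (.l 0) (.l 0))) (.n 2 (.n 2 (.l 0) (.l 0)) (.n 2 (.l 0) (.l 0)))))
    [(8171552768, 842006528), (188978561024, 17179869184), (399263662080, 114762973184)] rfl (by decide +kernel)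
theorem Z_c0_t33 : CovD 1 gZ [(7750549504, 421003264), (171798691840, 34359738368), (628789608448, 114762973184)] :=
  covD_E kZ_eq (.n 1 (.n 2 (.n 2 (.n 2 (.l 0) (.l 0)) (.n 2 (.l 0) (.l 0))) (.n 2 (.n 2 (.l 0) (.l 0)) (.n 2 (.l 0) (.l 0)))) (.n 2 (.n 2 (.n 2 (.l 0) (.l 0)) (.n 2 (.l 0) (.l 0))) (.n 2 (.n 2 (.l 0) (.l 0)) (.n 2 (.l 0) (.l 0)))))
    [(7750549504, 421003264), (171798691840, 34359738368), (628789608448, 114762973184)] rfl (by decide +kernel)
end

mutual
theorem Z_c0_t34 : CovD 1 gZ [(8592556032, 421003264), (171798691840, 34359738368), (628789608448, 114762973184)] :=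
  covD_E kZ_eq (.n 2 (.n 2 (.n 2 (.n 0 (.l 0) (.l 0)) (.l 0)) (.n 2 (.l 0) (.l 0))) (.n 2 (.n 2 (.l 0) (.l 0)) (.n 2 (.l 0) (.l 0))))
    [(8592556032, 421003264), (171798691840, 34359738368), (628789608448, 114762973184)] rfl (by decide +kernel)
theorem Z_c0_t36 : CovD 1 gZ [(8171552768, 842006528), (171798691840, 34359738368), (800934068224, 57381486592)] :=
  covD_E kZ_eq (.n 2 (.n 2 (.n 0 (.n 1 (.l 0) (.l 0)) (.l 0)) (.n 2 (.l 0) (.l 0))) (.n 0 (.n 2 (.l 0) (.l 0)) (.n 2 (.l 0) (.l 0))))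
    [(8171552768, 842006528), (171798691840, 34359738368), (800934068224, 57381486592)] rfl (by decide +kernel)
end

mutual
theorem Z_c0_t37 : CovD 1 gZ [(8171552768, 842006528), (171798691840, 34359738368), (915697041408, 57381486592)] :=
  covD_E kZ_eq (.n 0 (.n 2 (.n 0 (.n 2 (.l 0) (.l 0)) (.n 2 (.l 0) (.l 0))) (.n 2 (.n 0 (.l 0) (.l 0)) (.l 0))) (.n 2 (.n 2 (.l 0) (.l 0)) (.n 2 (.l 0) (.l 0))))
    [(8171552768, 842006528), (171798691840, 34359738368), (915697041408, 57381486592)] rfl (by decide +kernel)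
theorem Z_c0_t40 : CovD 1 gZ [(8171552768, 842006528), (223338299392, 17179869184), (284500688896, 229525946368)] :=
  covD_E kZ_eq (.n 2 (.n 2 (.n 2 (.n 2 (.l 0) (.l 0)) (.n 2 (.l 0) (.l 0))) (.n 2 (.n 2 (.l 0) (.l 0)) (.n 2 (.l 0) (.l 0)))) (.n 2 (.n 2 (.n 2 (.l 0) (.l 0)) (.n 2 (.l 0) (.l 0))) (.n 2 (.n 2 (.l 0) (.l 0)) (.n 2 (.l 0) (.l 0)))))
    [(8171552768, 842006528), (223338299392, 17179869184), (284500688896, 229525946368)] rfl (by decide +kernel)
end

mutual
theorem Z_c0_t41 : CovD 1 gZ [(8171552768, 842006528), (257698037760, 17179869184), (284500688896, 229525946368)] :=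
  covD_E kZ_eq (.n 2 (.n 2 (.n 2 (.n 2 (.l 0) (.l 0)) (.n 2 (.l 0) (.l 0))) (.n 0 (.n 2 (.l 0) (.l 0)) (.n 2 (.l 0) (.l 0)))) (.n 2 (.n 2 (.n 0 (.l 0) (.l 0)) (.n 2 (.l 0) (.l 0))) (.n 2 (.n 2 (.l 0) (.l 0)) (.n 0 (.l 0) (.l 0)))))
    [(8171552768, 842006528), (257698037760, 17179869184), (284500688896, 229525946368)] rfl (by decide +kernel)
theorem Z_c0_t43 : CovD 1 gZ [(8171552768, 842006528), (240518168576, 34359738368), (628789608448, 114762973184)] :=
  covD_E kZ_eq (.n 1 (.n 2 (.n 2 (.n 2 (.l 0) (.l 0)) (.n 2 (.l 0) (.l 0))) (.n 2 (.n 2 (.l 0) (.l 0)) (.n 2 (.l 0) (.l 0)))) (.n 0 (.n 2 (.n 2 (.l 0) (.l 0)) (.n 2 (.l 0) (.l 0))) (.n 2 (.n 2 (.l 0) (.l 0)) (.n 2 (.l 0) (.l 0)))))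
    [(8171552768, 842006528), (240518168576, 34359738368), (628789608448, 114762973184)] rfl (by decide +kernel)
end

mutual
theorem Z_c0_t44 : CovD 1 gZ [(8171552768, 842006528), (240518168576, 34359738368), (858315554816, 114762973184)] :=
  covD_E kZ_eq (.n 0 (.n 2 (.n 2 (.n 2 (.l 0) (.l 0)) (.n 2 (.l 0) (.l 0))) (.n 2 (.n 2 (.l 0) (.l 0)) (.n 2 (.l 0) (.l 0)))) (.n 2 (.n 2 (.n 1 (.l 0) (.l 0)) (.n 2 (.l 0) (.l 0))) (.n 2 (.n 2 (.l 0) (.l 0)) (.n 2 (.l 0) (.l 0)))))
    [(8171552768, 842006528), (240518168576, 34359738368), (858315554816, 114762973184)] rfl (by decide +kernel)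
theorem T_c0 : CovD 1 gT [(8171552768, 842006528), (137438953472, 137438953472)] :=
  covD_E kT_eq (.l 0)
    [(8171552768, 842006528), (137438953472, 137438953472)] rfl (by decide +kernel)
end

theorem S_c0 : CovD 0 gS [(8171552768, 842006528), (137438953472, 137438953472)] :=
  covD_E kS_eq (.n 1 (.l 0) (.l 0))
    [(8171552768, 842006528), (137438953472, 137438953472)] rfl (by decide +kernel)

theorem Z_c0_t3 : CovD 1 gZ [(8171552768, 842006528), (34359738368, 34359738368), (284500688896, 229525946368)] :=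
  covD_split 2 (by decide +kernel) Z_c0_t4 Z_c0_t5

theorem Z_c0_t8 : CovD 1 gZ [(8171552768, 842006528), (34359738368, 34359738368), (858315554816, 114762973184)] :=
  covD_split 2 (by decide +kernel) Z_c0_t9 Z_c0_t10

theorem Z_c0_t6 : CovD 1 gZ [(8171552768, 842006528), (34359738368, 34359738368), (743552581632, 229525946368)] :=
  covD_split 2 (by decide +kernel) Z_c0_t7 Z_c0_t8

theorem Z_c0_t2 : CovD 1 gZ [(8171552768, 842006528), (34359738368, 34359738368), (514026635264, 459051892736)] :=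
  covD_split 2 (by decide +kernel) Z_c0_t3 Z_c0_t6

theorem Z_c0_t12 : CovD 1 gZ [(8171552768, 842006528), (103079215104, 34359738368), (284500688896, 229525946368)] :=
  covD_split 2 (by decide +kernel) Z_c0_t13 Z_c0_t14

theorem Z_c0_t16 : CovD 1 gZ [(8171552768, 842006528), (103079215104, 34359738368), (628789608448, 114762973184)] :=
  covD_split 2 (by decide +kernel) Z_c0_t17 Z_c0_t18

theorem Z_c0_t19 : CovD 1 gZ [(8171552768, 842006528), (103079215104, 34359738368), (858315554816, 114762973184)] :=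
  covD_split 2 (by decide +kernel) Z_c0_t20 Z_c0_t21

theorem Z_c0_t15 : CovD 1 gZ [(8171552768, 842006528), (103079215104, 34359738368), (743552581632, 229525946368)] :=
  covD_split 2 (by decide +kernel) Z_c0_t16 Z_c0_t19

theorem Z_c0_t11 : CovD 1 gZ [(8171552768, 842006528), (103079215104, 34359738368), (514026635264, 459051892736)] :=
  covD_split 2 (by decide +kernel) Z_c0_t12 Z_c0_t15

theorem Z_c0_t1 : CovD 1 gZ [(8171552768, 842006528), (68719476736, 68719476736), (514026635264, 459051892736)] :=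
  covD_split 1 (by decide +kernel) Z_c0_t2 Z_c0_t11

theorem Z_c0_t25 : CovD 1 gZ [(8171552768, 842006528), (154618822656, 17179869184), (284500688896, 229525946368)] :=
  covD_split 2 (by decide +kernel) Z_c0_t26 Z_c0_t27

theorem Z_c0_t28 : CovD 1 gZ [(8171552768, 842006528), (188978561024, 17179869184), (284500688896, 229525946368)] :=
  covD_split 2 (by decide +kernel) Z_c0_t29 Z_c0_t30

theorem Z_c0_t24 : CovD 1 gZ [(8171552768, 842006528), (171798691840, 34359738368), (284500688896, 229525946368)] :=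
  covD_split 1 (by decide +kernel) Z_c0_t25 Z_c0_t28

theorem Z_c0_t32 : CovD 1 gZ [(8171552768, 842006528), (171798691840, 34359738368), (628789608448, 114762973184)] :=
  covD_split 0 (by decide +kernel) Z_c0_t33 Z_c0_t34

theorem Z_c0_t35 : CovD 1 gZ [(8171552768, 842006528), (171798691840, 34359738368), (858315554816, 114762973184)] :=
  covD_split 2 (by decide +kernel) Z_c0_t36 Z_c0_t37

theorem Z_c0_t31 : CovD 1 gZ [(8171552768, 842006528), (171798691840, 34359738368), (743552581632, 229525946368)] :=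
  covD_split 2 (by decide +kernel) Z_c0_t32 Z_c0_t35

theorem Z_c0_t23 : CovD 1 gZ [(8171552768, 842006528), (171798691840, 34359738368), (514026635264, 459051892736)] :=
  covD_split 2 (by decide +kernel) Z_c0_t24 Z_c0_t31

theorem Z_c0_t39 : CovD 1 gZ [(8171552768, 842006528), (240518168576, 34359738368), (284500688896, 229525946368)] :=
  covD_split 1 (by decide +kernel) Z_c0_t40 Z_c0_t41

theorem Z_c0_t42 : CovD 1 gZ [(8171552768, 842006528), (240518168576, 34359738368), (743552581632, 229525946368)] :=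
  covD_split 2 (by decide +kernel) Z_c0_t43 Z_c0_t44

theorem Z_c0_t38 : CovD 1 gZ [(8171552768, 842006528), (240518168576, 34359738368), (514026635264, 459051892736)] :=
  covD_split 2 (by decide +kernel) Z_c0_t39 Z_c0_t42

theorem Z_c0_t22 : CovD 1 gZ [(8171552768, 842006528), (206158430208, 68719476736), (514026635264, 459051892736)] :=
  covD_split 1 (by decide +kernel) Z_c0_t23 Z_c0_t38

theorem Z_c0 : CovD 1 gZ [(8171552768, 842006528), (137438953472, 137438953472), (514026635264, 459051892736)] :=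
  covD_split 1 (by decide +kernel) Z_c0_t1 Z_c0_t22

end Pool.Agent.helper14.NS.Q122a
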